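import Pool.Agent.Lib.KV.SpecK3

set_option autoImplicit false

open Set Filter Topology Metric

namespace KV

open KP

/-- The largest complex subspace of a real subspace. -/
private def basH (n : ℕ) (V : Submodule ℝ (Cn n)) : Submodule ℂ (Cn n) where
  carrier := {v | v ∈ V ∧ Complex.I • v ∈ V}
  add_mem' := by
    rintro a b ⟨ha, ha'⟩ ⟨hb, hb'⟩
    exact ⟨V.add_mem ha hb, by rw [smul_add]; exact V.add_mem ha' hb'⟩
  zero_mem' := ⟨V.zero_mem, by rw [smul_zero]; exact V.zero_mem⟩
  smul_mem' := by
    rintro c v ⟨hv, hv'⟩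
    have e1 : c • v = c.re • v + c.im • (Complex.I • v) := by
      funext i
      simp only [Pi.smul_apply, Pi.add_apply, smul_eq_mul, Complex.real_smul]
      conv_lhs => rw [← Complex.re_add_im c]
      ring
    have e2 : Complex.I • (c • v) = c.re • (Complex.I • v) - c.im • v := by
      funext i
      simp only [Pi.smul_apply, Pi.sub_apply, smul_eq_mul, Complex.real_smul]
      conv_lhs => rw [← Complex.re_add_im c]
      have := Complex.I_mul_I
      linear_combination ((c.im : ℂ) * v i) * this
    refine ⟨?_, ?_⟩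
    · rw [e1]
      exact V.add_mem (V.smul_mem _ hv) (V.smul_mem _ hv')
    · rw [e2]
      exact V.sub_mem (V.smul_mem _ hv') (V.smul_mem _ hv)

/-- **Bas.** -/
theorem tBas : S_Bas := by
  intro n V hV
  classical
  obtain ⟨C, hC⟩ := Submodule.exists_isCompl ((basH n V).restrictScalars ℝ)
  have hHV : (basH n V).restrictScalars ℝ ≤ V := fun v hv => hv.1
  set R : Submodule ℝ (Cn n) := C ⊓ V with hR
  have hRV : R ≤ V := inf_le_right
  have hsup : (basH n V).restrictScalars ℝ ⊔ R = V := by
    rw [hR, ← sup_inf_assoc_of_le _ hHV, hC.sup_eq_top, top_inf_eq]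
  have hdis : ∀ x : Cn n, x ∈ basH n V → x ∈ R → x = 0 := by
    intro x hx hx'
    have : x ∈ (basH n V).restrictScalars ℝ ⊓ C := ⟨hx, hx'.1⟩
    rw [hC.inf_eq_bot] at this
    exact (Submodule.mem_bot ℝ).1 this
  set m := Module.finrank ℂ (basH n V) with hm
  set k := Module.finrank ℝ R with hk
  let v := Module.finBasis ℂ (basH n V)
  let w := Module.finBasis ℝ R
  let f : Fin (m + k) → Cn n := Fin.append (fun i => (v i : Cn n)) (fun j => (w j : Cn n))
  have hsum : ∀ q : Cn (m + k), Fintype.linearCombination ℂ f q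
      = (∑ i : Fin m, q (Fin.castAdd k i) • (v i : Cn n))
        + ∑ j : Fin k, q (Fin.natAdd m j) • (w j : Cn n) := by
    intro q
    rw [Fintype.linearCombination_apply, Fin.sum_univ_add]
    simp [f]
  have hHmem : ∀ a : Fin m → ℂ, (∑ i : Fin m, a i • (v i : Cn n)) ∈ basH n V := by
    intro a
    exact Submodule.sum_mem _ fun i _ => Submodule.smul_mem _ _ (v i).2
  have hRmem : ∀ b : Fin k → ℝ, (∑ j : Fin k, ((b j : ℝ) : ℂ) • (w j : Cn n)) ∈ R := by
    intro b
    refine Submodule.sum_mem _ fun j _ => ?_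
    have : ((b j : ℝ) : ℂ) • (w j : Cn n) = b j • (w j : Cn n) := by
      funext i
      simp [Complex.real_smul]
    rw [this]
    exact Submodule.smul_mem _ _ (w j).2
  have hR0 : ∀ b : Fin k → ℝ, (∑ j : Fin k, ((b j : ℝ) : ℂ) • (w j : Cn n)) = 0 → b = 0 := by
    intro b hb
    have h1 : (∑ j : Fin k, b j • w j) = 0 := by
      apply Subtype.ext
      rw [Submodule.coe_sum]
      rw [Submodule.coe_zero, ← hb]
      refine Finset.sum_congr rfl fun j _ => ?_
      funext i
      simp [Complex.real_smul]
    funext j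
    exact Fintype.linearIndependent_iff.1 w.linearIndependent b h1 j
  have hkey : ∀ q : Cn (m + k), Fintype.linearCombination ℂ f q ∈ V → RealW q := by
    intro q hq
    rw [hsum] at hq
    have h1 := hHmem fun i => q (Fin.castAdd k i)
    have h2 : (∑ j : Fin k, q (Fin.natAdd m j) • (w j : Cn n)) ∈ V := by
      have := V.sub_mem hq h1.1
      rwa [add_sub_cancel_left] at this
    have h3 := hRmem fun j => (q (Fin.natAdd m j)).re
    have h4 := hRmem fun j => (q (Fin.natAdd m j)).im
    have h5 : (∑ j : Fin k, q (Fin.natAdd m j) • (w j : Cn n))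
        = (∑ j : Fin k, (((q (Fin.natAdd m j)).re : ℝ) : ℂ) • (w j : Cn n))
          + Complex.I • ∑ j : Fin k, (((q (Fin.natAdd m j)).im : ℝ) : ℂ) • (w j : Cn n) := by
      rw [Finset.smul_sum, ← Finset.sum_add_distrib]
      refine Finset.sum_congr rfl fun j _ => ?_
      rw [smul_smul, ← add_smul]
      congr 1
      rw [mul_comm]
      exact (Complex.re_add_im _).symm
    have h6 : Complex.I • (∑ j : Fin k, (((q (Fin.natAdd m j)).im : ℝ) : ℂ) • (w j : Cn n)) ∈ V := by
      have := V.sub_mem h2 (hRV h3)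
      rwa [h5, add_sub_cancel_left] at this
    have h7 := hdis _ (show _ ∈ basH n V from ⟨hRV h4, h6⟩) h4
    have h8 := hR0 _ h7
    intro j
    exact congrFun h8 j
  have hreal : ∀ q : Cn (m + k), RealW q →
      (∑ j : Fin k, q (Fin.natAdd m j) • (w j : Cn n))
        = ∑ j : Fin k, (((q (Fin.natAdd m j)).re : ℝ) : ℂ) • (w j : Cn n) := by
    intro q hq
    refine Finset.sum_congr rfl fun j _ => ?_
    congr 1
    apply Complex.ext
    · simp
    · simpa using hq j
  have hkey' : ∀ q : Cn (m + k), RealW q → Fintype.linearCombination ℂ f q ∈ V := by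
    intro q hq
    rw [hsum, hreal q hq]
    exact V.add_mem (hHmem _).1 (hRV (hRmem _))
  have hinj : Function.Injective (Fintype.linearCombination ℂ f) := by
    rw [injective_iff_map_eq_zero]
    intro q hq
    have hq' : RealW q := hkey q (by rw [hq]; exact V.zero_mem)
    rw [hsum, hreal q hq'] at hq
    have h1 : (∑ j : Fin k, (((q (Fin.natAdd m j)).re : ℝ) : ℂ) • (w j : Cn n)) = 0 := by
      refine hdis _ ?_ (hRmem _)
      have := (basH n V).neg_mem (hHmem fun i => q (Fin.castAdd k i))
      rwa [neg_eq_of_add_eq_zero_right hq] at this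
    rw [h1, add_zero] at hq
    have h2 := hR0 _ h1
    have h3 : (∑ i : Fin m, q (Fin.castAdd k i) • v i) = 0 := by
      apply Subtype.ext
      rw [Submodule.coe_sum, Submodule.coe_zero, ← hq]
      rfl
    have h4 := Fintype.linearIndependent_iff.1 v.linearIndependent _ h3
    funext i
    refine Fin.addCases (fun i => h4 i) (fun j => ?_) i
    apply Complex.ext
    · exact congrFun h2 j
    · exact hq' j
  have hsurj : Function.Surjective (Fintype.linearCombination ℂ f) := by
    rw [← LinearMap.range_eq_top, eq_top_iff, ← hV, Submodule.span_le]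
    intro x hx
    have hx' : x ∈ (basH n V).restrictScalars ℝ ⊔ R := by rw [hsup]; exact hx
    obtain ⟨y, hy, z, hz, rfl⟩ := Submodule.mem_sup.1 hx'
    have hy' : y ∈ basH n V := hy
    refine ⟨Fin.append (fun i => v.repr ⟨y, hy'⟩ i) (fun j => ((w.repr ⟨z, hz⟩ j : ℝ) : ℂ)), ?_⟩
    rw [hsum]
    simp only [Fin.append_left, Fin.append_right]
    congr 1
    · have := congrArg (Subtype.val) (v.sum_repr ⟨y, hy'⟩)
      rw [Submodule.coe_sum] at this
      exact this
    · have := congrArg (Subtype.val) (w.sum_repr ⟨z, hz⟩)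
      rw [Submodule.coe_sum] at this
      refine Eq.trans ?_ this
      refine Finset.sum_congr rfl fun j _ => ?_
      funext i
      simp [Complex.real_smul]
  let L : Cn (m + k) ≃L[ℂ] Cn n :=
    (LinearEquiv.ofBijective (Fintype.linearCombination ℂ f) ⟨hinj, hsurj⟩).toContinuousLinearEquiv
  refine ⟨m, k, ?_, L, fun q => ⟨hkey q, hkey' q⟩⟩
  have := L.toLinearEquiv.finrank_eq
  simpa using this

end KV
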