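import Pool.Agent.Lib.KV.SpecK3

set_option autoImplicit false

open Set Filter Topology Metric

namespace KV

open KP

namespace CRTAux

/-- The linear projection onto a subspace of a finite-dimensional space. -/
theorem exists_proj {n : ℕ} (W : Submodule ℂ (Cn n)) :
    ∃ P : Cn n →L[ℂ] W, ∀ w : W, P (w : Cn n) = w := by
  obtain ⟨P, hP⟩ := LinearMap.exists_leftInverse_of_injective W.subtype (Submodule.ker_subtype W)
  refine ⟨LinearMap.toContinuousLinearMap P, fun w => ?_⟩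
  have := LinearMap.congr_fun hP w
  simpa using this

/-- If `P ∘ A` is onto `W` and the rank of `A` is the dimension of `W`, then `P` is injective on the
range of `A`. -/
theorem ker_eq {d n : ℕ} (W : Submodule ℂ (Cn n)) (P : Cn n →L[ℂ] W) (A : Cn d →L[ℂ] Cn n)
    (hr : rk A = Module.finrank ℂ W) (hs : ∀ w : W, ∃ x, P (A x) = w) :
    ∀ x, P (A x) = 0 → A x = 0 := by
  have key : Function.Injective (P.toLinearMap.domRestrict (LinearMap.range A.toLinearMap)) := by
    rw [LinearMap.injective_iff_surjective_of_finrank_eq_finrank hr]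
    intro w
    obtain ⟨x, hx⟩ := hs w
    exact ⟨⟨A x, ⟨x, rfl⟩⟩, hx⟩
  intro x hx
  have h1 : (P.toLinearMap.domRestrict (LinearMap.range A.toLinearMap)) ⟨A x, ⟨x, rfl⟩⟩ = 0 := hx
  have h2 := (map_eq_zero_iff _ key).1 h1
  exact congrArg Subtype.val h2

end CRTAux

open CRTAux

theorem tCRT : S_CRT := by
  intro d n r F a ρ hρ hF hrn hrk
  set M : Cn d →L[ℂ] Cn n := fderiv ℂ F a with hM
  have haB : a ∈ ball a ρ := mem_ball_self hρ
  set W : Submodule ℂ (Cn n) := LinearMap.range M.toLinearMap with hW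
  have hWr : Module.finrank ℂ W = r := hrk a haB
  set K : Submodule ℂ (Cn d) := LinearMap.ker M.toLinearMap with hK
  obtain ⟨P, hP⟩ := exists_proj W
  obtain ⟨Q, hQ⟩ := exists_proj K
  have hana : ∀ ξ ∈ ball a ρ, ContDiffAt ℂ 1 F ξ := fun ξ hξ =>
    (Pool.Agent.Lib.Osgood.analyticOnNhd isOpen_ball hF ξ hξ).contDiffAt
  set Ψ : Cn d → W × K := fun ξ => (P (F ξ), Q (ξ - a)) with hΨ
  have hΨd : ∀ ξ ∈ ball a ρ, ContDiffAt ℂ 1 Ψ ξ := by
    intro ξ hξ
    refine ContDiffAt.prodMk (P.contDiff.contDiffAt.comp ξ (hana ξ hξ)) ?_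
    exact Q.contDiff.contDiffAt.comp ξ (contDiffAt_id.sub contDiffAt_const)
  have hΨf : ∀ ξ ∈ ball a ρ, HasFDerivAt Ψ ((P.comp (fderiv ℂ F ξ)).prod Q) ξ := by
    intro ξ hξ
    have hFd : HasFDerivAt F (fderiv ℂ F ξ) ξ :=
      (hF.differentiableAt (isOpen_ball.mem_nhds hξ)).hasFDerivAt
    have h1 : HasFDerivAt (fun ξ => P (F ξ)) (P.comp (fderiv ℂ F ξ)) ξ :=
      P.hasFDerivAt.comp ξ hFd
    have h2 : HasFDerivAt (fun ξ => Q (ξ - a)) Q ξ := by
      have := Q.hasFDerivAt.comp ξ ((hasFDerivAt_id ξ).sub_const a)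
      rw [ContinuousLinearMap.comp_id] at this
      exact this
    exact h1.prodMk h2
  -- the derivative at `a` is invertible
  have hinj : Function.Injective ((P.comp M).prod Q) := by
    rw [injective_iff_map_eq_zero]
    intro x hx
    have h1 : P (M x) = 0 := (Prod.ext_iff.1 hx).1
    have h2 : Q x = 0 := (Prod.ext_iff.1 hx).2
    have h3 : M x = 0 := by
      have := hP ⟨M x, ⟨x, rfl⟩⟩
      rw [h1] at this
      exact (congrArg Subtype.val this).symm
    have h4 := hQ ⟨x, h3⟩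
    rw [h2] at h4
    exact (congrArg Subtype.val h4).symm
  have hdim : Module.finrank ℂ (Cn d) = Module.finrank ℂ (W × K) := by
    rw [Module.finrank_prod]
    exact (LinearMap.finrank_range_add_finrank_ker M.toLinearMap).symm
  let e0 : Cn d ≃ₗ[ℂ] (W × K) :=
    LinearEquiv.ofInjectiveOfFinrankEq ((P.comp M).prod Q).toLinearMap hinj hdim
  let e : Cn d ≃L[ℂ] (W × K) := e0.toContinuousLinearEquiv
  have he : (e : Cn d →L[ℂ] (W × K)) = (P.comp M).prod Q := by
    ext x <;> rfl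
  have hΨa : HasFDerivAt Ψ (e : Cn d →L[ℂ] (W × K)) a := by
    rw [he]; exact hΨf a haB
  have hc := hΨd a haB
  have hn1 : (1 : WithTop ℕ∞) ≠ 0 := one_ne_zero
  set χ : W × K → Cn d := hc.localInverse hΨa hn1 with hχ
  have hχc : ContDiffAt ℂ 1 χ (Ψ a) := hc.to_localInverse hΨa hn1
  have hstr := hc.hasStrictFDerivAt' hΨa hn1
  have hχ' : χ = hstr.localInverse Ψ e a := rfl
  have hχa : χ (Ψ a) = a := hc.localInverse_apply_image hΨa hn1
  have hleft : ∀ᶠ ξ in 𝓝 a, χ (Ψ ξ) = ξ := hstr.eventually_left_inverse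
  have hright : ∀ᶠ y in 𝓝 (Ψ a), Ψ (χ y) = y := hstr.eventually_right_inverse
  have hχd : ∀ᶠ y in 𝓝 (Ψ a), ContDiffAt ℂ 1 χ y := hχc.eventually (by simp)
  have hχB : ∀ᶠ y in 𝓝 (Ψ a), χ y ∈ ball a ρ := by
    have h1 := hχc.continuousAt
    have h2 : ball a ρ ∈ 𝓝 (χ (Ψ a)) := by rw [hχa]; exact ball_mem_nhds a hρ
    exact h1 h2
  obtain ⟨ε, hε, hεB⟩ := Metric.eventually_nhds_iff_ball.1 (hright.and (hχd.and hχB))
  have hΨa0 : Ψ a = (P (F a), 0) := by
    simp [hΨ]
  have hball : ∀ (w : W) (κ : K), w ∈ ball (P (F a)) ε → κ ∈ ball (0 : K) ε →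
      (w, κ) ∈ ball (Ψ a) ε := by
    intro w κ hw hκ
    rw [hΨa0, ← ball_prod_same]
    exact ⟨hw, hκ⟩
  -- `F ∘ χ` does not depend on the second variable
  have hconst : ∀ (w : W) (κ : K), w ∈ ball (P (F a)) ε → κ ∈ ball (0 : K) ε →
      F (χ (w, κ)) = F (χ (w, 0)) := by
    intro w κ hw hκ
    have hder : ∀ κ1 ∈ ball (0 : K) ε, HasFDerivAt (fun κ1 : K => F (χ (w, κ1)))
        (0 : K →L[ℂ] Cn n) κ1 := by
      intro κ1 hκ1
      have hy := hball w κ1 hw hκ1
      obtain ⟨h1, h2, h3⟩ := hεB _ hy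
      have hχf : HasFDerivAt χ (fderiv ℂ χ (w, κ1)) (w, κ1) :=
        (h2.differentiableAt one_ne_zero).hasFDerivAt
      have hFd : HasFDerivAt F (fderiv ℂ F (χ (w, κ1))) (χ (w, κ1)) :=
        (hF.differentiableAt (isOpen_ball.mem_nhds h3)).hasFDerivAt
      have hcomp : HasFDerivAt (fun y => Ψ (χ y))
          (((P.comp (fderiv ℂ F (χ (w, κ1)))).prod Q).comp (fderiv ℂ χ (w, κ1))) (w, κ1) :=
        (hΨf _ h3).comp (w, κ1) hχf
      have hid : HasFDerivAt (fun y => Ψ (χ y)) (ContinuousLinearMap.id ℂ (W × K)) (w, κ1) := by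
        refine (hasFDerivAt_id (w, κ1)).congr_of_eventuallyEq ?_
        filter_upwards [isOpen_ball.mem_nhds hy] with y hy'
        exact (hεB y hy').1
      have huniq := hcomp.unique hid
      have hfst : ∀ y : W × K, P (fderiv ℂ F (χ (w, κ1)) (fderiv ℂ χ (w, κ1) y)) = y.1 := by
        intro y
        have := congrArg (fun L : (W × K) →L[ℂ] (W × K) => (L y).1) huniq
        simpa using this
      have hker := ker_eq W P (fderiv ℂ F (χ (w, κ1))) ((hrk _ h3).trans hWr.symm)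
        (fun w' => ⟨fderiv ℂ χ (w, κ1) (w', 0), hfst (w', 0)⟩)
      have hin : HasFDerivAt (fun κ1 : K => (w, κ1)) (ContinuousLinearMap.inr ℂ W K) κ1 :=
        hasFDerivAt_prodMk_right w κ1
      have htot := (hFd.comp (w, κ1) hχf).comp κ1 hin
      have hz : ((fderiv ℂ F (χ (w, κ1))).comp (fderiv ℂ χ (w, κ1))).comp
          (ContinuousLinearMap.inr ℂ W K) = 0 := by
        ext1 κ'
        exact hker _ (hfst (0, κ'))
      rw [hz] at htot
      exact htot
    have hd : DifferentiableOn ℂ (fun κ1 : K => F (χ (w, κ1))) (ball (0 : K) ε) := fun κ1 h =>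
      (hder κ1 h).differentiableAt.differentiableWithinAt
    exact (convex_ball (0 : K) ε).is_const_of_fderivWithin_eq_zero hd (fun κ1 h => by
      rw [(hder κ1 h).hasFDerivWithinAt.fderivWithin (isOpen_ball.uniqueDiffWithinAt h)]) hκ
      (mem_ball_self hε)
  -- a vector in the kernel of `P`
  obtain ⟨v, hv, hv0⟩ : ∃ v : Cn n, P v = 0 ∧ v ≠ 0 := by
    have hlt : Module.finrank ℂ W < Module.finrank ℂ (Cn n) := by
      rw [hWr]
      simpa [Cn] using hrn
    have h1 := LinearMap.ker_ne_bot_of_finrank_lt (f := P.toLinearMap) hlt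
    obtain ⟨v, hv, hv0⟩ := (Submodule.ne_bot_iff _).1 h1
    exact ⟨v, hv, hv0⟩
  obtain ⟨j, hj⟩ : ∃ j, v j ≠ 0 := by
    by_contra hcon
    push Not at hcon
    exact hv0 (funext hcon)
  -- radius
  have hPc : ∀ᶠ z in 𝓝 (F a), P z ∈ ball (P (F a)) ε :=
    P.continuous.continuousAt (ball_mem_nhds _ hε)
  obtain ⟨ρ', hρ', hρB⟩ := Metric.eventually_nhds_iff_ball.1 hPc
  refine ⟨ρ', hρ', fun z => (z - F (χ (P z, 0))) j, ?_, ?_, ?_⟩
  · intro z hz
    have hy := hball (P z) 0 (hρB z hz) (mem_ball_self hε)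
    obtain ⟨h1, h2, h3⟩ := hεB _ hy
    have hFd : DifferentiableAt ℂ F (χ (P z, 0)) :=
      hF.differentiableAt (isOpen_ball.mem_nhds h3)
    have hχf : DifferentiableAt ℂ χ (P z, 0) := h2.differentiableAt one_ne_zero
    have hin : DifferentiableAt ℂ (fun z : Cn n => ((P z, 0) : W × K)) z :=
      P.differentiableAt.prodMk (differentiableAt_const _)
    have htot : DifferentiableAt ℂ (fun z : Cn n => F (χ (P z, 0))) z := by
      have h5 : DifferentiableAt ℂ (fun z : Cn n => χ (P z, 0)) z := hχf.comp z hin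
      exact DifferentiableAt.comp z hFd h5
    have h6 : DifferentiableAt ℂ (fun z : Cn n => z - F (χ (P z, 0))) z :=
      differentiableAt_id.sub htot
    exact ((differentiableAt_pi.1 h6) j).differentiableWithinAt
  · -- not identically zero
    have hcont : Filter.Tendsto (fun t : ℂ => F a + t • v) (𝓝 0) (𝓝 (F a)) := by
      have : Continuous (fun t : ℂ => F a + t • v) := by fun_prop
      simpa using this.tendsto 0
    have hev : ∀ᶠ t : ℂ in 𝓝[≠] 0, F a + t • v ∈ ball (F a) ρ' :=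
      (hcont.eventually (ball_mem_nhds _ hρ')).filter_mono nhdsWithin_le_nhds
    obtain ⟨t, ht, ht0⟩ := (hev.and self_mem_nhdsWithin).exists
    refine ⟨F a + t • v, ht, ?_⟩
    have h1 : P (F a + t • v) = P (F a) := by
      rw [map_add, map_smul, hv, smul_zero, add_zero]
    have h2 : F (χ (P (F a), 0)) = F a := by
      rw [← hΨa0, hχa]
    show (F a + t • v - F (χ (P (F a + t • v), 0))) j ≠ 0
    rw [h1, h2, add_sub_cancel_left, Pi.smul_apply, smul_eq_mul]
    exact mul_ne_zero ht0 hj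
  · have hcΨ : ContinuousAt Ψ a := hc.continuousAt
    filter_upwards [hleft, hcΨ.eventually (ball_mem_nhds (Ψ a) hε)] with ξ h1 h2
    have h3 : (P (F ξ)) ∈ ball (P (F a)) ε ∧ Q (ξ - a) ∈ ball (0 : K) ε := by
      have h2' : Ψ ξ ∈ ball (Ψ a) ε := h2
      rw [hΨa0, ← ball_prod_same] at h2'
      exact h2'
    have h4 := hconst _ _ h3.1 h3.2
    have h5 : F (χ (P (F ξ), Q (ξ - a))) = F ξ := congrArg F h1
    rw [h5] at h4
    rw [← h4, sub_self]
    rfl

end KV
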