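import Pool.Agent.Lib.KV.SpecK3

set_option autoImplicit false

open Set Filter Topology Metric

namespace KV

open KP

theorem tChD : S_ChD := by
  intro ι _ _ T hT
  classical
  have h0 : (interior (prD (∅ : Finset ι) T)).Nonempty := by
    have h1 : prD (∅ : Finset ι) T = univ := by
      ext u
      obtain ⟨x, hx⟩ := hT
      refine ⟨fun _ => mem_univ _, fun _ => ⟨x, hx, fun i => ?_⟩⟩
      exact absurd i.2 (Finset.notMem_empty _)
    rw [h1, interior_univ]
    exact ⟨fun _ => 0, mem_univ _⟩
  obtain ⟨D, hD, hmax⟩ := (Finset.univ.filter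
    (fun D : Finset ι => (interior (prD D T)).Nonempty)).exists_max_image Finset.card
    ⟨∅, Finset.mem_filter.2 ⟨Finset.mem_univ _, h0⟩⟩
  refine ⟨D, (Finset.mem_filter.1 hD).2, fun j hj => ?_⟩
  by_contra hne
  have h2 := hmax (insert j D)
    (Finset.mem_filter.2 ⟨Finset.mem_univ _, nonempty_iff_ne_empty.2 hne⟩)
  rw [Finset.card_insert_of_notMem hj] at h2
  omega

end KV
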