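import Pool.Agent.Lib.KV.SpecK3

set_option autoImplicit false

open Set Filter Topology Metric

namespace KV

open KP

namespace DepAux

/-- A real vector as a complex vector. -/
noncomputable def cr (d : ℕ) : (Fin d → ℝ) →L[ℝ] Cn d :=
  ContinuousLinearMap.pi (fun i => Complex.ofRealCLM.comp (ContinuousLinearMap.proj i))

theorem cr_apply {d : ℕ} (t : Fin d → ℝ) : cr d t = fun i => (t i : ℂ) := rfl

theorem open_rk {d n : ℕ} (M : Cn d →L[ℂ] Cn n) : ∀ᶠ M' in 𝓝 M, rk M ≤ rk M' := by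
  let b := Module.finBasis ℂ (LinearMap.range M.toLinearMap)
  choose x hx using fun i => (b i).2
  have h0 := b.linearIndependent.map' (LinearMap.range M.toLinearMap).subtype
    (Submodule.ker_subtype _)
  have h1 : LinearIndependent ℂ (fun i => M (x i)) := by
    have h : (fun i => M (x i)) = (LinearMap.range M.toLinearMap).subtype ∘ b := by
      funext i
      exact hx i
    rw [h]
    exact h0
  have h2 : IsOpen {f : Fin (Module.finrank ℂ (LinearMap.range M.toLinearMap)) → Cn n |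
      LinearIndependent ℂ f} := isOpen_setOfPred_linearIndependent
  have h3 : Continuous (fun (M' : Cn d →L[ℂ] Cn n) => fun i => M' (x i)) :=
    continuous_pi fun i => (ContinuousLinearMap.apply ℂ (Cn n) (x i)).continuous
  filter_upwards [(h2.preimage h3).mem_nhds h1] with M' hM'
  have hM'' : LinearIndependent ℂ (fun i => M' (x i)) := hM'
  have h4 : LinearIndependent ℂ
      (fun i => (⟨M' (x i), x i, rfl⟩ : LinearMap.range M'.toLinearMap)) :=
    LinearIndependent.of_comp (LinearMap.range M'.toLinearMap).subtype hM''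
  have h5 := h4.fintype_card_le_finrank
  rw [Fintype.card_fin] at h5
  exact h5

theorem base (hC : S_Cplx) (h1 : S_RkC) (h2 : S_CRT) (d n : ℕ) (s : (Fin d → ℝ) → Cn n)
    (O : Set (Fin d → ℝ)) (hO : IsOpen O) (hne : O.Nonempty) (hs : AnalyticOnNhd ℝ s O)
    (hsp : ∀ u ∈ O, Submodule.span ℂ (range (fderiv ℝ s u)) ≠ ⊤) :
    ∃ u1 ∈ O, ∃ ρ > 0, ∃ h : Cn n → ℂ, DifferentiableOn ℂ h (ball (s u1) ρ) ∧
      (∃ z ∈ ball (s u1) ρ, h z ≠ 0) ∧ ∀ᶠ u in 𝓝 u1, h (s u) = 0 := by
  let R : (Fin d → ℝ) → ℕ := fun u =>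
    Module.finrank ℂ (Submodule.span ℂ (range (fderiv ℝ s u)))
  have hR : ∀ u, R u ≤ n := fun u => by
    have := Submodule.finrank_le (Submodule.span ℂ (range (fderiv ℝ s u)))
    rwa [Module.finrank_fin_fun] at this
  have hRn : ∀ u ∈ O, R u < n := fun u hu => by
    have := Submodule.finrank_lt (hsp u hu)
    rwa [Module.finrank_fin_fun] at this
  obtain ⟨u1, hu1, hmax⟩ : ∃ u1 ∈ O, ∀ u ∈ O, R u ≤ R u1 := by
    have hb : BddAbove (R '' O) := ⟨n, by rintro _ ⟨u, -, rfl⟩; exact hR u⟩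
    obtain ⟨u1, hu1, h⟩ := Nat.sSup_mem (hne.image R) hb
    exact ⟨u1, hu1, fun u hu => by rw [h]; exact le_csSup hb (mem_image_of_mem R hu)⟩
  obtain ⟨ρ0, hρ0, F, hF, hFs⟩ := hC d n s u1 (hs u1 hu1)
  obtain ⟨ρ1, hρ1, hρO⟩ := Metric.isOpen_iff.1 hO u1 hu1
  obtain ⟨ρ, hρ, hρl, hρr⟩ : ∃ ρ > 0, ρ ≤ ρ0 ∧ ρ ≤ ρ1 :=
    ⟨min ρ0 ρ1, lt_min hρ0 hρ1, min_le_left _ _, min_le_right _ _⟩
  have hF' : DifferentiableOn ℂ F (ball (cr d u1) ρ) := hF.mono (ball_subset_ball hρl)
  have hder : ∀ u ∈ ball u1 ρ,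
      fderiv ℝ s u = ((fderiv ℂ F (cr d u)).restrictScalars ℝ).comp (cr d) := by
    intro u hu
    have hm : cr d u ∈ ball (cr d u1) ρ := by
      rw [mem_ball, dist_eq_norm, ← map_sub, pi_norm_lt_iff hρ]
      rw [mem_ball, dist_eq_norm, pi_norm_lt_iff hρ] at hu
      intro i
      rw [cr_apply]
      have h8 : ‖(((u - u1) i : ℝ) : ℂ)‖ < ρ := by
        rw [Complex.norm_real]
        exact hu i
      exact h8
    have h3 : HasFDerivAt F (fderiv ℂ F (cr d u)) (cr d u) :=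
      ((hF' _ hm).differentiableAt (isOpen_ball.mem_nhds hm)).hasFDerivAt
    have h4 : HasFDerivAt (fun t => F (cr d t))
        (((fderiv ℂ F (cr d u)).restrictScalars ℝ).comp (cr d)) u :=
      (h3.restrictScalars ℝ).comp u (cr d).hasFDerivAt
    refine (h4.congr_of_eventuallyEq ?_).fderiv
    filter_upwards [isOpen_ball.mem_nhds hu] with t ht
    exact (hFs t (ball_subset_ball hρl ht)).symm
  have hrange : ∀ u ∈ ball u1 ρ, LinearMap.range (fderiv ℂ F (cr d u)).toLinearMap =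
      Submodule.span ℂ (range (fderiv ℝ s u)) := by
    intro u hu
    rw [hder u hu]
    apply le_antisymm
    · rintro _ ⟨z, rfl⟩
      have hz : z = ∑ i, z i • cr d (Pi.single i 1) := by
        ext j
        rw [Finset.sum_apply, Finset.sum_eq_single j]
        · simp [cr_apply]
        · intro b _ hb
          simp [cr_apply, Pi.single_eq_of_ne (Ne.symm hb)]
        · simp
      rw [hz, map_sum]
      refine Submodule.sum_mem _ fun i _ => ?_
      rw [map_smul]
      exact Submodule.smul_mem _ _ (Submodule.subset_span ⟨Pi.single i 1, rfl⟩)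
    · rw [Submodule.span_le]
      rintro _ ⟨t, rfl⟩
      exact ⟨cr d t, rfl⟩
  have hrk : ∀ u ∈ ball u1 ρ, rk (fderiv ℂ F (cr d u)) = R u := fun u hu => by
    simp only [rk, R]
    rw [hrange u hu]
  have hle := h1 d n (R u1) F u1 ρ hρ hF' (fun u hu => by
    have hu' : u ∈ ball u1 ρ := by rwa [mem_ball, dist_eq_norm]
    rw [show (fun i => (u i : ℂ)) = cr d u from rfl, hrk u hu']
    exact hmax u (hρO (ball_subset_ball hρr hu')))
  have hc : ContinuousAt (fderiv ℂ F) (cr d u1) :=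
    (Pool.Agent.Lib.Osgood.continuousOn_fderiv isOpen_ball hF').continuousAt
      (isOpen_ball.mem_nhds (mem_ball_self hρ))
  have hge : ∀ᶠ ξ in 𝓝 (cr d u1), R u1 ≤ rk (fderiv ℂ F ξ) := by
    have := hc.eventually (open_rk (fderiv ℂ F (cr d u1)))
    rw [hrk u1 (mem_ball_self hρ)] at this
    exact this
  obtain ⟨ρ2, hρ2, h2'⟩ := Metric.eventually_nhds_iff_ball.1 hge
  obtain ⟨ρ', hρ', h, hh, hz, hzero⟩ := h2 d n (R u1) F (cr d u1) (min ρ ρ2) (lt_min hρ hρ2)
    (hF'.mono (ball_subset_ball (min_le_left _ _))) (hRn u1 hu1)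
    (fun ξ hξ => le_antisymm (hle ξ (ball_subset_ball (min_le_left _ _) hξ))
      (h2' ξ (ball_subset_ball (min_le_right _ _) hξ)))
  have hFu : F (cr d u1) = s u1 := hFs u1 (mem_ball_self hρ0)
  refine ⟨u1, hu1, ρ', hρ', h, by rwa [← hFu], by rwa [← hFu], ?_⟩
  have h6 : ∀ᶠ t in 𝓝 u1, h (F (cr d t)) = 0 :=
    (cr d).continuous.continuousAt.eventually hzero
  filter_upwards [h6, isOpen_ball.mem_nhds (mem_ball_self hρ0 : u1 ∈ ball u1 ρ0)] with t ht ht'
  rwa [show F (cr d t) = s t from hFs t ht'] at ht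

end DepAux

theorem tDep (h1 : S_Cplx) (h2 : S_RkC) (h3 : S_CRT) : S_Dep := by
  intro κ _ n s O hO hne hs hsp
  let e : κ ≃ Fin (Fintype.card κ) := Fintype.equivFin κ
  let L : (Fin (Fintype.card κ) → ℝ) ≃L[ℝ] (κ → ℝ) :=
    (LinearEquiv.funCongrLeft ℝ ℝ e).toContinuousLinearEquiv
  have hfd : ∀ u, L u ∈ O → fderiv ℝ (fun t => s (L t)) u =
      (fderiv ℝ s (L u)).comp (L : (Fin (Fintype.card κ) → ℝ) →L[ℝ] (κ → ℝ)) := by
    intro u hu
    exact (((hs _ hu).differentiableAt.hasFDerivAt).comp u L.hasFDerivAt).fderiv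
  obtain ⟨u1, hu1, ρ, hρ, h, hh, hz, h0⟩ := DepAux.base h1 h2 h3 (Fintype.card κ) n
    (fun t => s (L t)) (L ⁻¹' O) (hO.preimage L.continuous)
    (by obtain ⟨y, hy⟩ := hne
        exact ⟨L.symm y, by rwa [mem_preimage, L.apply_symm_apply]⟩)
    (fun u hu => by
      have h7 : AnalyticAt ℝ (fun t => L t) u :=
        (L : (Fin (Fintype.card κ) → ℝ) →L[ℝ] (κ → ℝ)).analyticAt u
      exact AnalyticAt.comp (hs _ hu) h7)
    (fun u hu => by
      rw [hfd u hu]
      have h4 : range ((fderiv ℝ s (L u)).comp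
          (L : (Fin (Fintype.card κ) → ℝ) →L[ℝ] (κ → ℝ))) = range (fderiv ℝ s (L u)) := by
        ext z
        constructor
        · rintro ⟨t, rfl⟩
          exact ⟨L t, rfl⟩
        · rintro ⟨t, rfl⟩
          exact ⟨L.symm t, by simp⟩
      rw [h4]
      exact hsp _ hu)
  refine ⟨L u1, hu1, ρ, hρ, h, hh, hz, ?_⟩
  have h5 := (L.symm.continuous.continuousAt (x := L u1)).eventually
    (by rw [L.symm_apply_apply]; exact h0)
  filter_upwards [h5] with u hu
  simpa using hu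

end KV
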