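import Pool.Agent.Lib.KV.SpecK3

set_option autoImplicit false

open Set Filter Topology Metric

namespace KV

open KP

namespace FbFAux

theorem opt_eval {ι : Type} (x : ι → ℝ) (t : ℝ) (q : MvPolynomial (Option ι) ℝ) :
    (spz x (MvPolynomial.optionEquivLeft ℝ ι q)).eval t = MvPolynomial.eval (cns t x) q := by
  have h := MvPolynomial.optionEquivLeft_elim_eval ℝ ι x t q
  rw [spz, ← h]
  rfl

/-- The projection of `T` onto the coordinates in `D` and the coordinate `j`. -/
def Bj {ι : Type} (T : Set (ι → ℝ)) (D : Finset ι) (j : ι) : Set (Option {i // i ∈ D} → ℝ) :=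
  {z | ∃ x : ι → ℝ, x ∈ T ∧ (∀ i : {i // i ∈ D}, x i = z (some i)) ∧ x j = z none}

theorem sq_Bj (h1 : S_TSn) {ι : Type} [Fintype ι] (T : Set (ι → ℝ)) (hT : SQ T) (D : Finset ι)
    (j : ι) : SQ (Bj T D j) := by
  unfold Bj
  refine SQ.ex h1 (P := fun (z : Option {i // i ∈ D} → ℝ) (x : ι → ℝ) =>
    x ∈ T ∧ (∀ i : {i // i ∈ D}, x i = z (some i)) ∧ x j = z none) ?_
  have e1 : SQ {w : Option {i // i ∈ D} ⊕ ι → ℝ | (fun i => w (Sum.inr i)) ∈ T} :=
    hT.reidx (Sum.inr : ι → Option {i // i ∈ D} ⊕ ι)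
  have e2 : ∀ i : {i // i ∈ D}, SQ {w : Option {i // i ∈ D} ⊕ ι → ℝ |
      w (Sum.inr i.1) = w (Sum.inl (some i))} := by
    intro i
    have := SQ.eq (MvPolynomial.X (Sum.inr i.1) : MvPolynomial (Option {i // i ∈ D} ⊕ ι) ℝ)
      (MvPolynomial.X (Sum.inl (some i)))
    simpa using this
  have e3 : SQ {w : Option {i // i ∈ D} ⊕ ι → ℝ | w (Sum.inr j) = w (Sum.inl none)} := by
    have := SQ.eq (MvPolynomial.X (Sum.inr j) : MvPolynomial (Option {i // i ∈ D} ⊕ ι) ℝ)
      (MvPolynomial.X (Sum.inl none))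
    simpa using this
  have e4 := e1.inter ((SQ.iInter e2).inter e3)
  refine cast (congrArg SQ ?_) e4
  ext w
  simp only [mem_inter_iff, mem_iInter, mem_ofPred_eq]

theorem int_Bj {ι : Type} [DecidableEq ι] (T : Set (ι → ℝ)) (D : Finset ι) (j : ι) (hj : j ∉ D)
    (h : interior (prD (insert j D) T) = ∅) : interior (Bj T D j) = ∅ := by
  by_contra hne
  obtain ⟨z0, hz0⟩ := nonempty_iff_ne_empty.2 hne
  set ψ : ({i // i ∈ insert j D} → ℝ) → (Option {i // i ∈ D} → ℝ) := fun u o =>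
    Option.elim o (u ⟨j, Finset.mem_insert_self _ _⟩) (fun i => u ⟨i.1, Finset.mem_insert_of_mem i.2⟩)
    with hψ
  have hcont : Continuous ψ := by
    refine continuous_pi (fun o => ?_)
    cases o with
    | none => exact continuous_apply _
    | some i => exact continuous_apply _
  have hsub : ψ ⁻¹' (interior (Bj T D j)) ⊆ prD (insert j D) T := by
    intro u hu
    obtain ⟨x, hxT, hx1, hx2⟩ := interior_subset hu
    refine ⟨x, hxT, fun i => ?_⟩
    rcases Finset.mem_insert.1 i.2 with h2 | h2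
    · have h3 : i = ⟨j, Finset.mem_insert_self _ _⟩ := Subtype.ext h2
      rw [h3]
      exact hx2
    · exact hx1 ⟨i.1, h2⟩
  have hopen : IsOpen (ψ ⁻¹' (interior (Bj T D j))) := isOpen_interior.preimage hcont
  have h4 := interior_maximal hsub hopen
  rw [h] at h4
  set u0 : {i // i ∈ insert j D} → ℝ := fun i =>
    if hi : i.1 ∈ D then z0 (some ⟨i.1, hi⟩) else z0 none with hu0
  have h5 : ψ u0 = z0 := by
    funext o
    cases o with
    | none => simp [hψ, hu0, hj]
    | some i => simp [hψ, hu0, i.2]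
  have h6 : u0 ∈ ψ ⁻¹' (interior (Bj T D j)) := by
    rw [mem_preimage, h5]
    exact hz0
  exact h4 h6

end FbFAux

open FbFAux

theorem tFbF (h1 : S_TSn) (h2 : S_Dich) : S_FbF := by
  intro ι _ _ T hT D hD
  classical
  have key : ∀ j : {j // j ∉ D}, ∃ F : Polynomial (MvPolynomial {i // i ∈ D} ℝ), F ≠ 0 ∧
      ∀ (u : {i // i ∈ D} → ℝ) (x : ι → ℝ), x ∈ T → (∀ i : {i // i ∈ D}, x i = u i) →
        (spz u F).eval (x j) = 0 := by
    intro j
    obtain ⟨P, hP0, hP⟩ := h2 _ (Bj T D j) (sq_Bj h1 T hT D j)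
    have hint := int_Bj T D j j.2 (hD j j.2)
    refine ⟨MvPolynomial.optionEquivLeft ℝ _ P, ?_, ?_⟩
    · intro h3
      exact hP0 ((MvPolynomial.optionEquivLeft ℝ {i // i ∈ D}).injective (by rw [h3, map_zero]))
    · intro u x hxT hxu
      rw [opt_eval]
      by_contra hne
      have h3 := hP _ hne
      have h4 : cns (x j) u ∈ Bj T D j := ⟨x, hxT, fun i => hxu i, rfl⟩
      have h5 : cns (x j) u ∈ interior (Bj T D j) := by
        rw [mem_interior_iff_mem_nhds]
        filter_upwards [h3] with y hy using hy.2 h4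
      rw [hint] at h5
      exact h5
  choose F hF0 hF using key
  refine ⟨∏ j : {j // j ∉ D}, (F j).leadingCoeff, ?_, ?_⟩
  · rw [Finset.prod_ne_zero_iff]
    intro j _
    exact Polynomial.leadingCoeff_ne_zero.2 (hF0 j)
  · intro u hu
    rw [map_prod, Finset.prod_ne_zero_iff] at hu
    have hne : ∀ j, spz u (F j) ≠ 0 := by
      intro j h3
      have h4 := congrArg (fun p => p.coeff (F j).natDegree) h3
      simp only [spz, Polynomial.coeff_map, Polynomial.coeff_zero] at h4
      exact hu j (Finset.mem_univ _) h4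
    have hfin : ∀ i : ι, (if hi : i ∈ D then ({u ⟨i, hi⟩} : Set ℝ)
        else {t : ℝ | (spz u (F ⟨i, hi⟩)).IsRoot t}).Finite := by
      intro i
      by_cases hi : i ∈ D
      · rw [dif_pos hi]
        exact finite_singleton _
      · rw [dif_neg hi]
        exact Polynomial.finite_setOfPred_isRoot (hne _)
    refine (Set.Finite.pi' hfin).subset ?_
    rintro x ⟨hxT, hxu⟩ i
    by_cases hi : i ∈ D
    · rw [dif_pos hi]
      exact hxu ⟨i, hi⟩
    · rw [dif_neg hi]
      exact hF ⟨i, hi⟩ u x hxT hxu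

end KV
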