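import Pool.Agent.Lib.KV.SpecK3

set_option autoImplicit false

open Set Filter Topology Metric

namespace KV

open KP

namespace GnrAux

/-- `cpx` as a continuous linear map. -/
noncomputable def cpl (n : ℕ) : (Fin n ⊕ Fin n → ℝ) →L[ℝ] Cn n :=
  LinearMap.toContinuousLinearMap
    { toFun := cpx
      map_add' := fun x y => by
        ext i
        simp only [cpx, Pi.add_apply, Complex.ofReal_add]
        ring
      map_smul' := fun r x => by
        ext i
        simp only [cpx, Pi.smul_apply, smul_eq_mul, Complex.ofReal_mul, RingHom.id_apply,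
          Complex.real_smul]
        ring }

theorem cpl_apply {n : ℕ} (x : Fin n ⊕ Fin n → ℝ) : cpl n x = cpx x := rfl

/-- The real coordinates. -/
noncomputable def rl {n : ℕ} (c : Cn n) : Fin n ⊕ Fin n → ℝ :=
  Sum.elim (fun i => (c i).re) (fun i => (c i).im)

theorem cpx_rl {n : ℕ} (c : Cn n) : cpx (rl c) = c := by
  ext i
  simp [cpx, rl, Complex.re_add_im]

theorem rl_cpx {n : ℕ} (x : Fin n ⊕ Fin n → ℝ) : rl (cpx x) = x := by
  ext i
  rcases i with i | i <;> simp [cpx, rl]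

theorem cont_rl {n : ℕ} : Continuous (rl : Cn n → Fin n ⊕ Fin n → ℝ) := by
  refine continuous_pi fun i => ?_
  rcases i with i | i
  · exact Complex.continuous_re.comp (continuous_apply i)
  · exact Complex.continuous_im.comp (continuous_apply i)

end GnrAux

open GnrAux

theorem tGnr (h1 : KP.S_PkD) (h2 : S_Dep) : S_Gnr := by
  intro n A B hA hB D O g hG
  by_contra hcon
  push Not at hcon
  have hana : AnalyticOnNhd ℝ (fun v => cpx (g v)) O := (cpl n).comp_analyticOnNhd hG.ana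
  obtain ⟨u1, hu1, ρ, hρ, h, hh, hz, hev⟩ :=
    h2 {i // i ∈ D} n (fun v => cpx (g v)) O hG.hO hG.nO hana hcon
  obtain ⟨δ, hδ, hloc⟩ := hG.loc
  set c : Cn n := cpx (g u1) with hc
  have hcm : c ∈ Pk A ∩ B := hG.mem u1 hu1
  -- the parameters of a point
  have hrc : rl c = g u1 := rl_cpx _
  have ht1 : Tendsto (rl : Cn n → _) (𝓝 c) (𝓝 (g u1)) := by
    rw [← hrc]
    exact cont_rl.tendsto c
  have ht2 : Tendsto (fun c' : Cn n => (fun i : {i // i ∈ D} => rl c' i)) (𝓝 c) (𝓝 u1) := by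
    rw [tendsto_pi_nhds]
    intro i
    have h3 := ((continuous_apply (i : Fin n ⊕ Fin n)).tendsto (g u1)).comp ht1
    rw [hG.sec u1 hu1 i] at h3
    exact h3
  have hgc : ContinuousAt g u1 := (hG.ana u1 hu1).continuousAt
  have he1 : ∀ᶠ c' in 𝓝 c, ‖rl c' - g u1‖ < δ / 2 := by
    have h3 := ht1 (ball_mem_nhds (g u1) (half_pos hδ))
    filter_upwards [h3] with c' hc'
    rwa [mem_preimage, mem_ball_iff_norm] at hc'
  have he2 : ∀ᶠ u in 𝓝 u1, ‖g u - g u1‖ < δ / 2 := by
    have h3 := hgc (ball_mem_nhds (g u1) (half_pos hδ))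
    filter_upwards [h3] with u hu
    rwa [mem_preimage, mem_ball_iff_norm] at hu
  have he3 : ∀ᶠ u in 𝓝 u1, u ∈ O := hG.hO.mem_nhds hu1
  have he4 : ∀ᶠ c' in 𝓝 c, c' ∈ B := hB.mem_nhds hcm.2
  have hall := (he1.and he4).and (ht2.eventually ((he2.and he3).and hev))
  obtain ⟨r', hr', hball⟩ := Metric.eventually_nhds_iff_ball.1 hall
  obtain ⟨c', hc'P, hc'b, hc'h⟩ := h1 n A hA c hcm.1 h ρ hρ hh hz r' hr'
  obtain ⟨⟨ha, hb⟩, ⟨hd, he⟩, hf⟩ := hball c' hc'b
  have hT : rl c' ∈ {x : Fin n ⊕ Fin n → ℝ | cpx x ∈ Pk A ∩ B} := by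
    change cpx (rl c') ∈ Pk A ∩ B
    rw [cpx_rl]
    exact ⟨hc'P, hb⟩
  have heq : rl c' = g (fun i : {i // i ∈ D} => rl c' i) := by
    refine hloc _ he (rl c') hT (fun i => rfl) ?_
    have h4 : rl c' - g (fun i : {i // i ∈ D} => rl c' i) =
        (rl c' - g u1) - (g (fun i : {i // i ∈ D} => rl c' i) - g u1) := by abel
    rw [h4]
    exact (norm_sub_le _ _).trans_lt (by linarith)
  refine hc'h ?_
  have h5 : c' = cpx (g (fun i : {i // i ∈ D} => rl c' i)) := by
    rw [← heq, cpx_rl]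
  rw [h5]
  exact hf

end KV
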