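import Pool.Agent.Lib.KV.SpecK3

set_option autoImplicit false

open Set Filter Topology Metric

namespace KV

open KP

namespace GrEAux

theorem sq_imp {κ : Type} {p q : (κ → ℝ) → Prop} (hp : SQ {x | p x}) (hq : SQ {x | q x}) :
    SQ {x | p x → q x} := by
  have h := hp.compl.union hq
  refine cast (congrArg SQ ?_) h
  ext x
  exact imp_iff_not_or.symm

theorem sq_xeq {κ : Type} (a b : κ) : SQ {w : κ → ℝ | w a = w b} := by
  have := SQ.eq (MvPolynomial.X a : MvPolynomial κ ℝ) (MvPolynomial.X b)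
  simpa using this

theorem sq_abs {κ : Type} (a b : κ) (c : ℝ) : SQ {w : κ → ℝ | c ≤ |w a - w b|} := by
  have e1 : SQ {w : κ → ℝ | c ≤ w a - w b} := by
    have := SQ.le (MvPolynomial.C c : MvPolynomial κ ℝ) (MvPolynomial.X a - MvPolynomial.X b)
    simpa using this
  have e2 : SQ {w : κ → ℝ | c ≤ w b - w a} := by
    have := SQ.le (MvPolynomial.C c : MvPolynomial κ ℝ) (MvPolynomial.X b - MvPolynomial.X a)
    simpa using this
  refine cast (congrArg SQ ?_) (e1.union e2)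
  ext w
  have : c ≤ |w a - w b| ↔ c ≤ w a - w b ∨ c ≤ w b - w a := by
    rw [le_abs, neg_sub]
  exact this.symm

theorem sq_all' {κ J : Type} [Finite J] {p : J → (κ → ℝ) → Prop} (hp : ∀ j, SQ {x | p j x}) :
    SQ {x | ∀ j, p j x} := by
  refine cast (congrArg SQ ?_) (SQ.iInter hp)
  ext x
  simp only [mem_iInter]
  exact Iff.rfl

theorem sq_ex' {κ J : Type} [Finite J] {p : J → (κ → ℝ) → Prop} (hp : ∀ j, SQ {x | p j x}) :
    SQ {x | ∃ j, p j x} := by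
  refine cast (congrArg SQ ?_) (SQ.iUnion hp)
  ext x
  simp only [mem_iUnion]
  exact Iff.rfl

theorem sq_fib {ι : Type} [Fintype ι] (T : Set (ι → ℝ)) (hT : SQ T) (D : Finset ι) :
    SQ {z : {i // i ∈ D} ⊕ ι → ℝ | (fun j => z (Sum.inr j)) ∈ T ∧
      ∀ i : {i // i ∈ D}, z (Sum.inr i.1) = z (Sum.inl i)} := by
  have e1 : SQ {w : {i // i ∈ D} ⊕ ι → ℝ | (fun i => w (Sum.inr i)) ∈ T} :=
    hT.reidx (Sum.inr : ι → {i // i ∈ D} ⊕ ι)
  have e2 : SQ {w : {i // i ∈ D} ⊕ ι → ℝ | ∀ i : {i // i ∈ D}, w (Sum.inr i.1) = w (Sum.inl i)} :=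
    sq_all' (fun i => sq_xeq _ _)
  exact e1.inter e2

theorem sq_E (h1 : S_TSn) {ι : Type} [Fintype ι] (T : Set (ι → ℝ)) (hT : SQ T) (D : Finset ι)
    (σ : ({i // i ∈ D} → ℝ) → (ι → ℝ)) (hσ : SF σ) (c : ℝ) :
    SQ {u : {i // i ∈ D} → ℝ | ∀ x : ι → ℝ, x ∈ T → (∀ i : {i // i ∈ D}, x i = u i) →
      ∀ y : ι → ℝ, y = σ u → x ≠ y → ∃ j, c ≤ |x j - y j|} := by
  refine SQ.all h1 (P := fun (u : {i // i ∈ D} → ℝ) (x : ι → ℝ) => x ∈ T →
    (∀ i : {i // i ∈ D}, x i = u i) → ∀ y : ι → ℝ, y = σ u → x ≠ y → ∃ j, c ≤ |x j - y j|) ?_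
  have e1 : SQ {w : {i // i ∈ D} ⊕ ι → ℝ | (fun i => w (Sum.inr i)) ∈ T} :=
    hT.reidx (Sum.inr : ι → {i // i ∈ D} ⊕ ι)
  have e2 : SQ {w : {i // i ∈ D} ⊕ ι → ℝ | ∀ i : {i // i ∈ D}, w (Sum.inr i.1) = w (Sum.inl i)} :=
    sq_all' (fun i => sq_xeq _ _)
  refine sq_imp e1 (sq_imp e2 ?_)
  refine SQ.all h1 (P := fun (z : {i // i ∈ D} ⊕ ι → ℝ) (y : ι → ℝ) =>
    y = σ (fun i => z (Sum.inl i)) → (fun j => z (Sum.inr j)) ≠ y →
      ∃ j, c ≤ |z (Sum.inr j) - y j|) ?_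
  have e3 : SQ {w : ({i // i ∈ D} ⊕ ι) ⊕ ι → ℝ |
      (fun j => w (Sum.inr j)) = σ (fun i => w (Sum.inl (Sum.inl i)))} := by
    have := hσ.reidx (fun s : {i // i ∈ D} ⊕ ι =>
      (Sum.elim (fun i => Sum.inl (Sum.inl i)) (fun j => Sum.inr j) s :
        ({i // i ∈ D} ⊕ ι) ⊕ ι))
    exact this
  have e4 : SQ {w : ({i // i ∈ D} ⊕ ι) ⊕ ι → ℝ |
      (fun j => w (Sum.inl (Sum.inr j))) ≠ fun j => w (Sum.inr j)} := by
    have h5 : SQ {w : ({i // i ∈ D} ⊕ ι) ⊕ ι → ℝ |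
        ∀ j : ι, w (Sum.inl (Sum.inr j)) = w (Sum.inr j)} := sq_all' (fun i => sq_xeq _ _)
    refine cast (congrArg SQ ?_) h5.compl
    ext w
    exact not_congr funext_iff.symm
  have e5 : SQ {w : ({i // i ∈ D} ⊕ ι) ⊕ ι → ℝ |
      ∃ j : ι, c ≤ |w (Sum.inl (Sum.inr j)) - w (Sum.inr j)|} := sq_ex' (fun j => sq_abs _ _ _)
  exact sq_imp e3 (sq_imp e4 e5)

end GrEAux

open GrEAux in
theorem tGrE (h1 : S_TSn) (h2 : S_ChD) (h3 : S_FbF) (h4 : S_NowD) (h5 : S_Sel) (h6 : S_AnaV)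
    (h7 : S_Bai) : S_GrE := by
  intro ι _ _ T hT hne
  obtain ⟨D, hD1, hD2⟩ := h2 ι T hne
  obtain ⟨a, ha, hfin⟩ := h3 ι T hT D hD2
  obtain ⟨hop, hdn⟩ := h4 {i // i ∈ D} a ha
  obtain ⟨σ, hσ, hσ2⟩ := h5 {i // i ∈ D} ι _ (sq_fib T hT D)
  have hO1 : IsOpen (interior (prD D T) ∩ {u | MvPolynomial.eval u a ≠ 0}) :=
    isOpen_interior.inter hop
  have nO1 : (interior (prD D T) ∩ {u | MvPolynomial.eval u a ≠ 0}).Nonempty :=
    hdn.inter_open_nonempty _ isOpen_interior hD1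
  have hs : ∀ u ∈ interior (prD D T) ∩ {u | MvPolynomial.eval u a ≠ 0},
      σ u ∈ T ∧ ∀ i : {i // i ∈ D}, σ u i = u i := by
    intro u hu
    have hf := hfin u hu.2
    obtain ⟨x, hxT, hx⟩ := interior_subset hu.1
    exact hσ2 u hf.isCompact ⟨x, hxT, hx⟩
  obtain ⟨x0, hx0, hana⟩ := h6 {i // i ∈ D} ι σ hσ _ hO1 nO1
  have hev := hana.eventually_analyticAt
  have hO2 : IsOpen (interior {y | AnalyticAt ℝ σ y} ∩
      (interior (prD D T) ∩ {u | MvPolynomial.eval u a ≠ 0})) := isOpen_interior.inter hO1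
  have nO2 : (interior {y | AnalyticAt ℝ σ y} ∩
      (interior (prD D T) ∩ {u | MvPolynomial.eval u a ≠ 0})).Nonempty :=
    ⟨x0, mem_interior_iff_mem_nhds.2 hev, hx0⟩
  obtain ⟨N, hN⟩ := h7 {i // i ∈ D} _ (fun N : ℕ =>
    {u : {i // i ∈ D} → ℝ | ∀ x : ι → ℝ, x ∈ T → (∀ i : {i // i ∈ D}, x i = u i) →
      ∀ y : ι → ℝ, y = σ u → x ≠ y → ∃ j, (1 / ((N : ℝ) + 1)) ≤ |x j - y j|}) hO2 nO2
    (fun N => sq_E h1 T hT D σ hσ _) (by
      intro u hu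
      have hf := hfin u hu.2.2
      have hex : ∀ x : ι → ℝ, ∃ n : ℕ, x ≠ σ u → ∃ j, (1 / ((n : ℝ) + 1)) ≤ |x j - σ u j| := by
        intro x
        by_cases hx : x = σ u
        · exact ⟨0, fun h => absurd hx h⟩
        · obtain ⟨j, hj⟩ := Function.ne_iff.1 hx
          have hpos : 0 < |x j - σ u j| := abs_pos.2 (sub_ne_zero.2 hj)
          obtain ⟨n, hn⟩ := exists_nat_one_div_lt hpos
          exact ⟨n, fun _ => ⟨j, hn.le⟩⟩
      choose n hn using hex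
      refine mem_iUnion.2 ⟨hf.toFinset.sup n, ?_⟩
      intro x hxT hx y hy hxy
      subst hy
      obtain ⟨j, hj⟩ := hn x hxy
      refine ⟨j, le_trans ?_ hj⟩
      have hle : n x ≤ hf.toFinset.sup n := Finset.le_sup (hf.mem_toFinset.2 ⟨hxT, hx⟩)
      have hle' : (n x : ℝ) ≤ (hf.toFinset.sup n : ℕ) := by exact_mod_cast hle
      exact one_div_le_one_div_of_le (by positivity) (by linarith))
  refine ⟨D, _, σ, ⟨isOpen_interior.inter hO2, hN, ?_, ?_, ?_, ?_⟩⟩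
  · intro u hu
    have h9 : u ∈ {y | AnalyticAt ℝ σ y} := interior_subset hu.2.1
    exact h9
  · intro u hu i
    exact (hs u hu.2.2).2 i
  · intro u hu
    exact (hs u hu.2.2).1
  · refine ⟨1 / ((N : ℝ) + 1), by positivity, ?_⟩
    intro u hu x hxT hx hlt
    by_contra hne'
    obtain ⟨j, hj⟩ := interior_subset hu.1 x hxT hx (σ u) rfl hne'
    have h8 : |x j - σ u j| ≤ ‖x - σ u‖ := norm_le_pi_norm (x - σ u) j
    linarith

end KV
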