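import Pool.Agent.Lib.KV.SpecK3

/-!
# KV (MP_64edc4_ag), block K: the codimension is positive
-/

set_option autoImplicit false

open Set Filter Topology Metric

namespace KV

open KP

/-- The real coordinates. -/
private def kposF (m : ℕ) (q : Cn (m + 0)) : Ix m 0 → ℝ :=
  Sum.elim (Sum.elim (fun a => (q (Fin.castAdd 0 a)).re) (fun a => (q (Fin.castAdd 0 a)).im))
    (fun j => j.elim0)

private theorem kpos_cont (m : ℕ) : Continuous (kposF m) := by
  refine continuous_pi fun i => ?_
  rcases i with (a | a) | j
  · change Continuous fun q : Cn (m + 0) => (q (Fin.castAdd 0 a)).re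
    exact Complex.continuous_re.comp (continuous_apply _)
  · change Continuous fun q : Cn (m + 0) => (q (Fin.castAdd 0 a)).im
    exact Complex.continuous_im.comp (continuous_apply _)
  · exact j.elim0

private theorem kpos_left (m : ℕ) (x : Ix m 0 → ℝ) (v : Fin 0 → ℝ) : kposF m (pt x v) = x := by
  funext i
  rcases i with (a | a) | j
  · change (pt x v (Fin.castAdd 0 a)).re = _
    rw [pt, Fin.append_left]
    simp
  · change (pt x v (Fin.castAdd 0 a)).im = _
    rw [pt, Fin.append_left]
    simp
  · exact j.elim0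

private theorem kpos_right (m : ℕ) (q : Cn (m + 0)) (v : Fin 0 → ℝ) : pt (kposF m q) v = q := by
  funext i
  refine Fin.addCases (fun a => ?_) (fun j => j.elim0) i
  simp only [kposF, pt, Fin.append_left, Sum.elim_inl, Sum.elim_inr]
  exact Complex.re_add_im _

theorem tKpos : S_Kpos := by
  intro m A O h H
  obtain ⟨x0, hx0⟩ := H.nO
  have hopen : IsOpen (kposF m ⁻¹' O) := H.hO.preimage (kpos_cont m)
  have hcl : pt x0 (h x0) ∈ closure A := (H.pk x0 hx0).2.1
  obtain ⟨q, hq1, hq2⟩ := mem_closure_iff.1 hcl (kposF m ⁻¹' O) hopen (by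
    change kposF m (pt x0 (h x0)) ∈ O
    rw [kpos_left]
    exact hx0)
  have h1 := (H.pk (kposF m q) hq1).1
  rw [kpos_right] at h1
  exact h1 hq2

end KV
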