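import Pool.Agent.Lib.KV.SpecK3

/-!
# KV, block K3: the normal form
-/

set_option autoImplicit false

open Set Filter Topology Metric

namespace KV

open KP

namespace NFaAux

variable {m k : ℕ}

/-- The coordinates `(Re z, Im z, Re w)`. -/
def xo (q : Cn (m + k)) : Ix m k → ℝ :=
  Sum.elim (Sum.elim (fun a => (q (Fin.castAdd k a)).re) (fun a => (q (Fin.castAdd k a)).im))
    (fun j => (q (Fin.natAdd m j)).re)

/-- The coordinates `Im w`. -/
def vo (q : Cn (m + k)) : Fin k → ℝ := fun j => (q (Fin.natAdd m j)).im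

theorem pt_xo_vo (q : Cn (m + k)) : pt (xo q) (vo q) = q := by
  ext i
  refine Fin.addCases (fun i => ?_) (fun i => ?_) i
  · simp [pt, xo, Complex.re_add_im]
  · simp [pt, xo, vo, Complex.re_add_im]

theorem xo_pt (x : Ix m k → ℝ) (v : Fin k → ℝ) : xo (pt x v) = x := by
  ext i
  rcases i with (i | i) | j
  · simp [xo, pt]
  · simp [xo, pt]
  · simp [xo, pt]

theorem vo_pt (x : Ix m k → ℝ) (v : Fin k → ℝ) : vo (pt x v) = v := by
  ext j
  simp [vo, pt]

theorem norm_xo_sub (q q' : Cn (m + k)) : ‖xo q - xo q'‖ ≤ ‖q - q'‖ := by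
  refine (pi_norm_le_iff_of_nonneg (norm_nonneg _)).2 fun i => ?_
  rw [Real.norm_eq_abs, Pi.sub_apply]
  rcases i with (i | i) | j
  · have h : xo q (Sum.inl (Sum.inl i)) - xo q' (Sum.inl (Sum.inl i)) =
        ((q - q') (Fin.castAdd k i)).re := by simp [xo]
    rw [h]
    exact (Complex.abs_re_le_norm _).trans (norm_le_pi_norm (q - q') _)
  · have h : xo q (Sum.inl (Sum.inr i)) - xo q' (Sum.inl (Sum.inr i)) =
        ((q - q') (Fin.castAdd k i)).im := by simp [xo]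
    rw [h]
    exact (Complex.abs_im_le_norm _).trans (norm_le_pi_norm (q - q') _)
  · have h : xo q (Sum.inr j) - xo q' (Sum.inr j) = ((q - q') (Fin.natAdd m j)).re := by
      simp [xo]
    rw [h]
    exact (Complex.abs_re_le_norm _).trans (norm_le_pi_norm (q - q') _)

theorem norm_vo_sub (q q' : Cn (m + k)) : ‖vo q - vo q'‖ ≤ ‖q - q'‖ := by
  refine (pi_norm_le_iff_of_nonneg (norm_nonneg _)).2 fun j => ?_
  rw [Real.norm_eq_abs, Pi.sub_apply]
  have h : vo q j - vo q' j = ((q - q') (Fin.natAdd m j)).im := by simp [vo]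
  rw [h]
  exact (Complex.abs_im_le_norm _).trans (norm_le_pi_norm (q - q') _)

theorem norm_re_add_im (s t : ℝ) : ‖(s : ℂ) + (t : ℂ) * Complex.I‖ ≤ |s| + |t| := by
  refine (norm_add_le _ _).trans ?_
  rw [norm_mul, Complex.norm_I, mul_one, Complex.norm_real, Complex.norm_real, Real.norm_eq_abs,
    Real.norm_eq_abs]

theorem norm_pt_le (x : Ix m k → ℝ) (v : Fin k → ℝ) (s : ℝ) (hx : ‖x‖ ≤ s) (hv : ‖v‖ ≤ s) :
    ‖pt x v‖ ≤ s + s := by
  have hs : 0 ≤ s := (norm_nonneg _).trans hx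
  have hx' : ∀ i, |x i| ≤ s := fun i => (norm_le_pi_norm x i).trans hx
  have hv' : ∀ i, |v i| ≤ s := fun i => (norm_le_pi_norm v i).trans hv
  refine (pi_norm_le_iff_of_nonneg (by linarith)).2 fun i => ?_
  refine Fin.addCases (fun i => ?_) (fun i => ?_) i
  · unfold pt
    rw [Fin.append_left]
    exact (norm_re_add_im _ _).trans (add_le_add (hx' _) (hx' _))
  · unfold pt
    rw [Fin.append_right]
    exact (norm_re_add_im _ _).trans (add_le_add (hx' _) (hv' _))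

/-- The renumbering of the real coordinates. -/
def rn : Fin (m + k) ⊕ Fin (m + k) → Ix m k ⊕ Fin k :=
  Sum.elim
    (fun i => Fin.addCases (motive := fun _ => Ix m k ⊕ Fin k)
      (fun a => Sum.inl (Sum.inl (Sum.inl a))) (fun j => Sum.inl (Sum.inr j)) i)
    (fun i => Fin.addCases (motive := fun _ => Ix m k ⊕ Fin k)
      (fun a => Sum.inl (Sum.inl (Sum.inr a))) (fun j => Sum.inr j) i)

theorem cpx_rn (z : Ix m k ⊕ Fin k → ℝ) :
    cpx (fun j => z (rn j)) = pt (fun i => z (Sum.inl i)) (fun j => z (Sum.inr j)) := by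
  ext i
  refine Fin.addCases (fun i => ?_) (fun i => ?_) i
  · simp [cpx, pt, rn]
  · simp [cpx, pt, rn]

theorem sq_abs {ι : Type} (i : ι) (r : ℝ) : SQ {z : ι → ℝ | |z i| < r} := by
  have h1 := (SQ.lt (MvPolynomial.X i) (MvPolynomial.C r : MvPolynomial ι ℝ)).inter
    (SQ.lt (MvPolynomial.C (-r) : MvPolynomial ι ℝ) (MvPolynomial.X i))
  have h2 : {z : ι → ℝ | |z i| < r} =
      {x : ι → ℝ | MvPolynomial.eval x (MvPolynomial.X i) < MvPolynomial.eval x (MvPolynomial.C r)} ∩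
      {x : ι → ℝ | MvPolynomial.eval x (MvPolynomial.C (-r)) <
        MvPolynomial.eval x (MvPolynomial.X i)} := by
    ext z
    simp only [mem_setOf_eq, mem_inter_iff, MvPolynomial.eval_X, MvPolynomial.eval_C, abs_lt]
    exact and_comm
  rw [h2]
  exact h1

/-- The set for the selection. -/
def ST (A : Set (Cn (m + k))) (r1 r2 : ℝ) : Set (Ix m k ⊕ Fin k → ℝ) :=
  ((⋂ i : Ix m k, {z : Ix m k ⊕ Fin k → ℝ | |z (Sum.inl i)| < r1}) ∩
    (⋂ j : Fin k, {z : Ix m k ⊕ Fin k → ℝ | |z (Sum.inr j)| < r2})) ∩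
    {z | pt (fun i => z (Sum.inl i)) (fun j => z (Sum.inr j)) ∈ Pk A}

theorem sq_ST {A : Set (Cn (m + k))} (h : SC (Pk A)) (r1 r2 : ℝ) : SQ (ST A r1 r2) := by
  refine ((SQ.iInter fun i => sq_abs _ r1).inter (SQ.iInter fun j => sq_abs _ r2)).inter ?_
  have h1 : SQ {z : Ix m k ⊕ Fin k → ℝ | (fun j => z (rn j)) ∈
      {x : Fin (m + k) ⊕ Fin (m + k) → ℝ | cpx x ∈ Pk A}} := SQ.reidx h (rn (m := m) (k := k))
  have h2 : {z : Ix m k ⊕ Fin k → ℝ | pt (fun i => z (Sum.inl i)) (fun j => z (Sum.inr j)) ∈ Pk A} =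
      {z : Ix m k ⊕ Fin k → ℝ | (fun j => z (rn j)) ∈
      {x : Fin (m + k) ⊕ Fin (m + k) → ℝ | cpx x ∈ Pk A}} := by
    ext z
    rw [mem_setOf_eq, mem_setOf_eq, mem_setOf_eq, cpx_rn]
  rw [h2]
  exact h1

theorem mem_ST {A : Set (Cn (m + k))} {r1 r2 : ℝ} (h1 : 0 < r1) (h2 : 0 < r2) (x : Ix m k → ℝ)
    (y : Fin k → ℝ) : pr x y ∈ ST A r1 r2 ↔ (‖x‖ < r1 ∧ ‖y‖ < r2) ∧ pt x y ∈ Pk A := by
  rw [pi_norm_lt_iff h1, pi_norm_lt_iff h2]
  unfold ST
  rw [mem_inter_iff, mem_inter_iff, mem_iInter, mem_iInter]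
  rfl

end NFaAux

open NFaAux

theorem tNFa (hSel : S_Sel) : S_NFa := by
  intro m k A hA hSA hSP r1 r2 ρ h0 hr1 hr1ρ hr2 hr2ρ hana hh
  obtain ⟨σ, hσ, hsel⟩ := hSel (Ix m k) (Fin k) (ST A r1 r2) (sq_ST hSP r1 r2)
  have heq : ∀ x ∈ ball (0 : Ix m k → ℝ) r1, σ x = h0 x := by
    intro x hx
    have hxn : ‖x‖ < r1 := by rwa [mem_ball_zero_iff] at hx
    obtain ⟨-, hb, hiff⟩ := hh x hx
    have hset : {y : Fin k → ℝ | pr x y ∈ ST A r1 r2} = {h0 x} := by
      ext y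
      rw [mem_setOf_eq, mem_ST hr1 hr2, mem_singleton_iff]
      constructor
      · rintro ⟨⟨_, h2⟩, h3⟩
        exact (hiff y h2).1 h3
      · rintro rfl
        exact ⟨⟨hxn, hb⟩, (hiff _ hb).2 rfl⟩
    have h1 : σ x ∈ {y : Fin k → ℝ | pr x y ∈ ST A r1 r2} := by
      refine hsel x ?_ ⟨h0 x, ?_⟩
      · rw [hset]; exact isCompact_singleton
      · have : h0 x ∈ {y : Fin k → ℝ | pr x y ∈ ST A r1 r2} := by
          rw [hset]; exact mem_singleton _
        exact this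
    rw [hset] at h1
    exact h1
  refine ⟨σ, ⟨hA, hSA, isOpen_ball, ⟨0, mem_ball_self hr1⟩, hσ, ?_, ?_, ?_, ?_⟩, ?_⟩
  · exact hana.congr isOpen_ball fun x hx => (heq x hx).symm
  · intro x hx
    have : fderiv ℝ σ x = fderiv ℝ h0 x := by
      apply Filter.EventuallyEq.fderiv_eq
      filter_upwards [isOpen_ball.mem_nhds hx] with y hy
      exact heq y hy
    rw [this]
    exact (hh x hx).1
  · intro x hx
    obtain ⟨-, hb, hiff⟩ := hh x hx
    rw [heq x hx]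
    exact (hiff _ hb).2 rfl
  · intro x hx
    have hxn : ‖x‖ < r1 := by rwa [mem_ball_zero_iff] at hx
    obtain ⟨-, hb, -⟩ := hh x hx
    rw [heq x hx]
    refine ⟨min (r1 - ‖x‖) (r2 - ‖h0 x‖), lt_min (by linarith) (by linarith), fun q hq hqp => ?_⟩
    rw [mem_ball, dist_eq_norm] at hq
    have e1 : ‖xo q - x‖ < r1 - ‖x‖ := by
      have := norm_xo_sub q (pt x (h0 x))
      rw [xo_pt] at this
      exact this.trans_lt (hq.trans_le (min_le_left _ _))
    have e2 : ‖vo q - h0 x‖ < r2 - ‖h0 x‖ := by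
      have := norm_vo_sub q (pt x (h0 x))
      rw [vo_pt] at this
      exact this.trans_lt (hq.trans_le (min_le_right _ _))
    have e3 : ‖xo q‖ < r1 := by
      have := norm_le_norm_add_norm_sub' (xo q) x
      linarith
    have e4 : ‖vo q‖ < r2 := by
      have := norm_le_norm_add_norm_sub' (vo q) (h0 x)
      linarith
    have hx' : xo q ∈ ball (0 : Ix m k → ℝ) r1 := by rwa [mem_ball_zero_iff]
    refine ⟨xo q, hx', ?_⟩
    rw [heq _ hx']
    have hqp' : pt (xo q) (vo q) ∈ Pk A := by rw [pt_xo_vo]; exact hqp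
    rw [← ((hh _ hx').2.2 (vo q) e4).1 hqp', pt_xo_vo]
  · intro x hx
    have hxn : ‖x‖ < r1 := by rwa [mem_ball_zero_iff] at hx
    obtain ⟨-, hb, -⟩ := hh x hx
    rw [heq x hx]
    have := norm_pt_le x (h0 x) ρ (by linarith) (by linarith)
    have hρ : 0 < ρ := by linarith
    linarith

end KV
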