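import Pool.Agent.Lib.KV.SpecK3

/-!
# KV (MP_64edc4_ag), block K: the output
-/

set_option autoImplicit false

open Set Filter Topology Metric

namespace KV

open KP

/-- Balls of the maximum norm are semialgebraic. -/
private theorem nfb_ball {n : ℕ} (p : Cn n) {r : ℝ} (hr : 0 < r) : SC (ball p r) := by
  have h1 : ∀ i : Fin n, SQ {x : Fin n ⊕ Fin n → ℝ |
      MvPolynomial.eval x ((MvPolynomial.X (Sum.inl i) - MvPolynomial.C (p i).re) ^ 2 +
        (MvPolynomial.X (Sum.inr i) - MvPolynomial.C (p i).im) ^ 2) <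
      MvPolynomial.eval x (MvPolynomial.C (r ^ 2))} := fun i => SQ.lt _ _
  have h2 := SQ.iInter h1
  have h3 : (⋂ i : Fin n, {x : Fin n ⊕ Fin n → ℝ |
      MvPolynomial.eval x ((MvPolynomial.X (Sum.inl i) - MvPolynomial.C (p i).re) ^ 2 +
        (MvPolynomial.X (Sum.inr i) - MvPolynomial.C (p i).im) ^ 2) <
      MvPolynomial.eval x (MvPolynomial.C (r ^ 2))}) =
      {x : Fin n ⊕ Fin n → ℝ | cpx x ∈ ball p r} := by
    ext x
    rw [mem_iInter]
    change (∀ i, _) ↔ cpx x ∈ ball p r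
    rw [mem_ball, dist_pi_lt_iff hr]
    refine forall_congr' fun i => ?_
    have h4 : dist (cpx x i) (p i) =
        √((x (Sum.inl i) - (p i).re) ^ 2 + (x (Sum.inr i) - (p i).im) ^ 2) := by
      rw [Complex.dist_eq_re_im]
      simp [cpx]
    rw [h4, Real.sqrt_lt' hr]
    simp
  rw [h3] at h2
  exact h2

/-- The real coordinates of a point. -/
private theorem nfb_cpx {n : ℕ} (p : Cn n) :
    cpx (Sum.elim (fun i => (p i).re) (fun i => (p i).im)) = p := by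
  funext i
  exact Complex.re_add_im (p i)

theorem tNFb (h1 : S_GrE) (h2 : S_Gnr) (h3 : S_Bas) (h4 : S_PaE) (h5 : S_PaG) (h6 : S_NFa)
    (h7 : S_SCa) (h8 : S_Kpos) (h9 : KP.S_PkC) : S_NFb := by
  intro N n V U c0 p _ hopen hSC hSCP hpW hp
  obtain ⟨r, hr, hrW⟩ := Metric.isOpen_iff.1 c0.hW p hpW
  classical
  have hT : SQ {x : Fin n ⊕ Fin n → ℝ | cpx x ∈ Pk (c0.pre U) ∩ ball p r} :=
    SQ.inter hSCP (nfb_ball p hr)
  have hTn : {x : Fin n ⊕ Fin n → ℝ | cpx x ∈ Pk (c0.pre U) ∩ ball p r}.Nonempty := by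
    refine ⟨Sum.elim (fun i => (p i).re) (fun i => (p i).im), ?_⟩
    change cpx _ ∈ Pk (c0.pre U) ∩ ball p r
    rw [nfb_cpx]
    exact ⟨hp, mem_ball_self hr⟩
  obtain ⟨D, O', g, hG⟩ := h1 (Fin n ⊕ Fin n) _ hT hTn
  obtain ⟨u0, hu0, hspan⟩ := h2 n (c0.pre U) (ball p r) hopen isOpen_ball D O' g hG
  obtain ⟨m, k, hmk, L, hL⟩ := h3 n
    (LinearMap.range (fderiv ℝ (fun v => cpx (g v)) u0).toLinearMap) (by
      rw [LinearMap.coe_range]
      exact hspan)
  subst hmk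
  have hL' : ∀ q, L q ∈ range (fderiv ℝ (fun v => cpx (g v)) u0) ↔ RealW q := by
    intro q
    rw [← hL q]
    exact Iff.rfl
  obtain ⟨σ, τ, hPar⟩ := h4 m k (c0.pre U) (ball p r) hopen isOpen_ball D O' g hG u0 hu0 L hL'
  have hc1 : cpx (g u0) ∈ c0.W := hrW (hG.mem u0 hu0).2
  -- the neighbourhood of the origin which stays in the chart
  have hcont : Continuous fun q : Cn (m + k) => cpx (g u0) + L q :=
    continuous_const.add L.continuous
  obtain ⟨δ, hδ, hδW⟩ := Metric.isOpen_iff.1 (c0.hW.preimage hcont) 0 (by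
    change cpx (g u0) + L 0 ∈ c0.W
    rw [map_zero, add_zero]
    exact hc1)
  have hρ : 0 < δ / 4 := by positivity
  have hρW : ∀ q : Cn (m + k), ‖q‖ ≤ 3 * (δ / 4) → cpx (g u0) + L q ∈ c0.W := by
    intro q hq
    apply hδW
    rw [mem_ball_zero_iff]
    linarith
  have hε : (0 : ℝ) < 1 / (100 * (k + 1)) := by positivity
  obtain ⟨r1, r2, h0, hr1, hr1ρ, hr2, hr2ρ, hana, hcond⟩ := h5 m k _ {i // i ∈ D} u0 σ τ hPar
    (1 / (100 * (k + 1))) hε (δ / 4) hρ
  -- the transformed set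
  have hA'o : IsOpen ((Chart.aff (cpx (g u0)) L).pre (c0.pre U)) := by
    have h10 : (Chart.aff (cpx (g u0)) L).pre (c0.pre U) =
        (fun q : Cn (m + k) => cpx (g u0) + L q) ⁻¹' (c0.pre U) := by
      ext q
      change (q ∈ (univ : Set (Cn (m + k))) ∧ cpx (g u0) + L q ∈ c0.pre U) ↔ _
      simp
    rw [h10]
    exact hopen.preimage hcont
  have hA'PkEq : Pk ((Chart.aff (cpx (g u0)) L).pre (c0.pre U)) =
      (Chart.aff (cpx (g u0)) L).pre (Pk (c0.pre U)) := by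
    ext w
    have h10 := h9 (m + k) (c0.pre U) (Chart.aff (cpx (g u0)) L) hopen w (mem_univ w)
    constructor
    · intro hw
      exact ⟨mem_univ _, h10.1 hw⟩
    · intro hw
      exact h10.2 hw.2
  have hA'SCP : SC (Pk ((Chart.aff (cpx (g u0)) L).pre (c0.pre U))) := by
    rw [hA'PkEq]
    exact h7 _ _ _ _ hSCP
  obtain ⟨h, hNF, hpt⟩ := h6 m k _ hA'o (h7 _ _ _ _ hSC) hA'SCP r1 r2 (δ / 4) h0 hr1 hr1ρ hr2
    hr2ρ hana hcond
  have hk : 0 < k := by
    rcases Nat.eq_zero_or_pos k with hk0 | hk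
    · exfalso
      subst hk0
      exact h8 m _ _ _ hNF
    · exact hk
  refine ⟨m, k, hk, rfl, c0.comp (Chart.aff (cpx (g u0)) L), ball 0 r1, h, ?_, ?_⟩
  · rw [Chart.comp_pre]
    exact hNF
  · intro x hx
    exact ⟨mem_univ _, hρW _ (hpt x hx)⟩

end KV
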