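import Pool.Agent.Lib.KV.SpecK3

/-!
# KV, block K3: the parametrization in the adapted coordinates
-/

set_option autoImplicit false

open Set Filter Topology Metric

namespace KV

open KP

namespace PaEAux

variable {n : ℕ}

/-- The real coordinates, as a continuous linear map. -/
noncomputable def rho (n : ℕ) : Cn n →L[ℝ] (Fin n ⊕ Fin n → ℝ) :=
  ContinuousLinearMap.pi fun i => Sum.elim
    (fun i => Complex.reCLM.comp (ContinuousLinearMap.proj (R := ℝ) (φ := fun _ : Fin n => ℂ) i))
    (fun i => Complex.imCLM.comp (ContinuousLinearMap.proj (R := ℝ) (φ := fun _ : Fin n => ℂ) i)) i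

/-- The complex point, as a continuous linear map. -/
noncomputable def cpl (n : ℕ) : (Fin n ⊕ Fin n → ℝ) →L[ℝ] Cn n :=
  ContinuousLinearMap.pi fun i =>
    (ContinuousLinearMap.proj (R := ℝ) (φ := fun _ : Fin n ⊕ Fin n => ℝ) (Sum.inl i)).smulRight
      (1 : ℂ) +
    (ContinuousLinearMap.proj (R := ℝ) (φ := fun _ : Fin n ⊕ Fin n => ℝ) (Sum.inr i)).smulRight
      Complex.I

theorem rho_apply (z : Cn n) : rho n z = reim z := by
  ext i
  rcases i with i | i <;> rfl

theorem cpl_apply (x : Fin n ⊕ Fin n → ℝ) : cpl n x = cpx x := by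
  ext i
  simp [cpl, cpx]

theorem rho_cpx (x : Fin n ⊕ Fin n → ℝ) : rho n (cpx x) = x := by
  rw [rho_apply]
  ext i
  rcases i with i | i <;> simp [reim, cpx]

theorem cpx_rho (z : Cn n) : cpx (rho n z) = z := by
  rw [rho_apply]
  ext i
  simp [reim, cpx, Complex.re_add_im]

/-- The coordinates in `D`. -/
noncomputable def prj {ι : Type} (D : Finset ι) : (ι → ℝ) →L[ℝ] ({i // i ∈ D} → ℝ) :=
  ContinuousLinearMap.pi fun i => ContinuousLinearMap.proj (R := ℝ) (φ := fun _ : ι => ℝ) i.1

theorem prj_apply {ι : Type} (D : Finset ι) (x : ι → ℝ) (i : {i // i ∈ D}) :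
    prj D x i = x i := rfl

end PaEAux

open PaEAux

theorem tPaE (h1 : KP.S_PkC) : S_PaE := by
  intro m k A B hA hB D O g hG u0 hu0 L htan
  set p : Cn (m + k) := cpx (g u0) with hp
  set Λ : Cn (m + k) →L[ℝ] Cn (m + k) :=
    ((L.symm : Cn (m + k) →L[ℂ] Cn (m + k))).restrictScalars ℝ with hΛ
  have hΛa : ∀ z, Λ z = L.symm z := fun z => rfl
  set s : ({i // i ∈ D} → ℝ) → Cn (m + k) := fun v => cpx (g v) with hs
  have hs' : s = fun v => cpl (m + k) (g v) := by
    funext v
    rw [cpl_apply]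
  have hsan : AnalyticAt ℝ s u0 := by
    rw [hs']
    exact ((cpl (m + k)).analyticAt _).comp (hG.ana u0 hu0)
  have hsd : DifferentiableAt ℝ s u0 := hsan.differentiableAt
  set σ : ({i // i ∈ D} → ℝ) → Cn (m + k) := fun u => Λ (s u - p) with hσ
  set τ : Cn (m + k) → ({i // i ∈ D} → ℝ) := fun q => prj D (rho (m + k) (p + L q)) with hτ
  have hσan : AnalyticAt ℝ σ u0 := (Λ.analyticAt _).comp (hsan.sub analyticAt_const)
  have hσf : HasFDerivAt σ (Λ.comp (fderiv ℝ s u0)) u0 :=
    Λ.hasFDerivAt.comp u0 (hsd.hasFDerivAt.sub_const p)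
  have hτc : Continuous τ :=
    (prj D).continuous.comp ((rho (m + k)).continuous.comp (continuous_const.add L.continuous))
  have hτ0 : τ 0 = u0 := by
    ext i
    show prj D (rho (m + k) (p + L 0)) i = u0 i
    rw [map_zero, add_zero, prj_apply, hp, rho_cpx]
    exact hG.sec u0 hu0 i
  have hOn : O ∈ 𝓝 u0 := hG.hO.mem_nhds hu0
  have hpT := hG.mem u0 hu0
  have hpB : p ∈ B := hpT.2
  have hpsi : ∀ q, (Chart.aff p L).psi q = p + L q := fun q => rfl
  have hT : ∀ q, q ∈ Pk ((Chart.aff p L).pre A) ↔ p + L q ∈ Pk A := fun q =>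
    h1 (m + k) A (Chart.aff p L) hA q (mem_univ _)
  refine ⟨σ, τ, hσan, ?_, ?_, hτc.continuousAt, hτ0, ?_, ?_, ?_⟩
  · show Λ (s u0 - p) = 0
    rw [show s u0 = p from rfl, sub_self, map_zero]
  · filter_upwards [hOn] with u hu
    rw [hT]
    show p + L (L.symm (s u - p)) ∈ Pk A
    rw [ContinuousLinearEquiv.apply_symm_apply, add_sub_cancel]
    exact (hG.mem u hu).1
  · obtain ⟨δ, hδ, hloc⟩ := hG.loc
    have e1 : ∀ᶠ q in 𝓝 (0 : Cn (m + k)), p + L q ∈ B := by
      have hc : ContinuousAt (fun q : Cn (m + k) => p + L q) 0 :=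
        (continuous_const.add L.continuous).continuousAt
      refine hc.eventually_mem ?_
      show B ∈ 𝓝 (p + L 0)
      rw [map_zero, add_zero]
      exact hB.mem_nhds hpB
    have e2 : ∀ᶠ q in 𝓝 (0 : Cn (m + k)), τ q ∈ O := by
      refine hτc.continuousAt.eventually_mem ?_
      rw [hτ0]
      exact hOn
    have e3 : ∀ᶠ q in 𝓝 (0 : Cn (m + k)), ‖rho (m + k) (p + L q) - g (τ q)‖ < δ := by
      have hg : ContinuousAt (fun q => g (τ q)) 0 := by
        have h := (hG.ana u0 hu0).continuousAt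
        rw [← hτ0] at h
        exact ContinuousAt.comp (f := τ) (g := g) h hτc.continuousAt
      have hc : ContinuousAt (fun q => ‖rho (m + k) (p + L q) - g (τ q)‖) 0 :=
        (((rho (m + k)).continuous.comp
          (continuous_const.add L.continuous)).continuousAt.sub hg).norm
      have h0 : ‖rho (m + k) (p + L 0) - g (τ 0)‖ < δ := by
        rw [hτ0, map_zero, add_zero, hp, rho_cpx, sub_self, norm_zero]
        exact hδ
      exact hc.eventually_lt_const h0
    filter_upwards [e1, e2, e3] with q k1 k2 k3 hq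
    rw [hT] at hq
    have hx : rho (m + k) (p + L q) = g (τ q) := by
      refine hloc (τ q) k2 _ ?_ (fun i => rfl) k3
      show cpx (rho (m + k) (p + L q)) ∈ Pk A ∩ B
      rw [cpx_rho]
      exact ⟨hq, k1⟩
    show L.symm (cpx (g (τ q)) - p) = q
    rw [← hx, cpx_rho, add_sub_cancel_left, ContinuousLinearEquiv.symm_apply_apply]
  · rw [hσf.fderiv]
    have hid : (prj D).comp ((rho (m + k)).comp (fderiv ℝ s u0)) =
        ContinuousLinearMap.id ℝ ({i // i ∈ D} → ℝ) := by
      have k1 : HasFDerivAt (fun u => prj D (rho (m + k) (s u)))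
          ((prj D).comp ((rho (m + k)).comp (fderiv ℝ s u0))) u0 :=
        (prj D).hasFDerivAt.comp u0 ((rho (m + k)).hasFDerivAt.comp u0 hsd.hasFDerivAt)
      have k2 : (fun u => prj D (rho (m + k) (s u))) =ᶠ[𝓝 u0] id := by
        filter_upwards [hOn] with u hu
        ext i
        show prj D (rho (m + k) (cpx (g u))) i = u i
        rw [rho_cpx, prj_apply]
        exact hG.sec u hu i
      exact (k1.congr_of_eventuallyEq k2.symm).unique (hasFDerivAt_id u0)
    intro v w hvw
    have k1 : fderiv ℝ s u0 v = fderiv ℝ s u0 w := L.symm.injective hvw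
    have k2 := congrArg (fun M => M v) hid
    have k3 := congrArg (fun M => M w) hid
    simp only [ContinuousLinearMap.comp_apply, ContinuousLinearMap.id_apply] at k2 k3
    rw [← k2, ← k3, k1]
  · intro q
    rw [← htan q, hσf.fderiv]
    constructor
    · rintro ⟨v, hv⟩
      refine ⟨v, ?_⟩
      have : L.symm (fderiv ℝ s u0 v) = q := hv
      rw [← this, ContinuousLinearEquiv.apply_symm_apply]
    · rintro ⟨v, hv⟩
      refine ⟨v, ?_⟩
      show L.symm (fderiv ℝ s u0 v) = q
      have hv' : fderiv ℝ s u0 v = L q := hv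
      rw [hv', ContinuousLinearEquiv.symm_apply_apply]

end KV
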