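import Pool.Agent.Lib.KV.SpecK3

/-!
# KV (MP_64edc4_ag), block K: from the parametrization to a graph
-/

set_option autoImplicit false

open Set Filter Topology Metric

namespace KV

open KP

/-- `(Re z, Im z, Re w)`. -/
private noncomputable def pagP (m k : ℕ) : Cn (m + k) →L[ℝ] (Ix m k → ℝ) :=
  LinearMap.toContinuousLinearMap
    { toFun := fun q => Sum.elim (Sum.elim (fun a => (q (Fin.castAdd k a)).re)
        (fun a => (q (Fin.castAdd k a)).im)) (fun j => (q (Fin.natAdd m j)).re)
      map_add' := by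
        intro q q'
        funext i
        rcases i with (a | a) | j <;> simp
      map_smul' := by
        intro c q
        funext i
        rcases i with (a | a) | j <;> simp }

/-- `Im w`. -/
private noncomputable def pagN (m k : ℕ) : Cn (m + k) →L[ℝ] (Fin k → ℝ) :=
  LinearMap.toContinuousLinearMap
    { toFun := fun q j => (q (Fin.natAdd m j)).im
      map_add' := by
        intro q q'
        funext j
        simp
      map_smul' := by
        intro c q
        funext j
        simp }

private theorem pagP_pt {m k : ℕ} (x : Ix m k → ℝ) (v : Fin k → ℝ) : pagP m k (pt x v) = x := by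
  funext i
  rcases i with (a | a) | j
  · change (pt x v (Fin.castAdd k a)).re = _
    simp [pt, Fin.append_left]
  · change (pt x v (Fin.castAdd k a)).im = _
    simp [pt, Fin.append_left]
  · change (pt x v (Fin.natAdd m j)).re = _
    simp [pt, Fin.append_right]

private theorem pagN_pt {m k : ℕ} (x : Ix m k → ℝ) (v : Fin k → ℝ) : pagN m k (pt x v) = v := by
  funext j
  change (pt x v (Fin.natAdd m j)).im = _
  simp [pt, Fin.append_right]

private theorem pag_eta {m k : ℕ} (q : Cn (m + k)) : pt (pagP m k q) (pagN m k q) = q := by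
  funext i
  refine Fin.addCases (fun a => ?_) (fun j => ?_) i
  · simp only [pt, Fin.append_left]
    exact Complex.re_add_im (q (Fin.castAdd k a))
  · simp only [pt, Fin.append_right]
    exact Complex.re_add_im (q (Fin.natAdd m j))

private theorem pag_real {m k : ℕ} (q : Cn (m + k)) : RealW q ↔ pagN m k q = 0 := by
  constructor
  · intro h
    funext j
    exact h j
  · intro h j
    exact congrFun h j

private theorem pag_pt_cont {m k : ℕ} :
    Continuous fun p : (Ix m k → ℝ) × (Fin k → ℝ) => pt p.1 p.2 := by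
  refine continuous_pi fun i => ?_
  refine Fin.addCases (fun a => ?_) (fun j => ?_) i
  · simp only [pt, Fin.append_left]
    fun_prop
  · simp only [pt, Fin.append_right]
    fun_prop

private theorem pag_pt_zero {m k : ℕ} : pt (0 : Ix m k → ℝ) (0 : Fin k → ℝ) = 0 := by
  have h := pag_eta (0 : Cn (m + k))
  rwa [map_zero, map_zero] at h

theorem tPaG : S_PaG := by
  intro m k T κ _ u0 σ τ H ε hε ρ hρ
  set A := fderiv ℝ σ u0 with hA
  have hσ : HasStrictFDerivAt σ A u0 := H.ana.hasStrictFDerivAt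
  have hNA : ∀ u, pagN m k (A u) = 0 := fun u => (pag_real _).1 ((H.tan _).1 ⟨u, rfl⟩)
  -- the derivative of `π ∘ σ`
  have hinj : Function.Injective ((pagP m k).comp A) := by
    rw [← ContinuousLinearMap.coe_coe, ← LinearMap.ker_eq_bot, LinearMap.ker_eq_bot']
    intro u hu
    have h1 : A u = 0 := by
      rw [← pag_eta (A u), hNA u]
      have h2 : pagP m k (A u) = 0 := hu
      rw [h2, pag_pt_zero]
    exact H.inj (by rw [h1, map_zero])
  have hsurj : Function.Surjective ((pagP m k).comp A) := by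
    intro x
    have h1 : RealW (pt x (0 : Fin k → ℝ)) := by
      rw [pag_real, pagN_pt]
    obtain ⟨u, hu⟩ := (H.tan _).2 h1
    refine ⟨u, ?_⟩
    change pagP m k (A u) = x
    rw [hu, pagP_pt]
  let e : (κ → ℝ) ≃L[ℝ] (Ix m k → ℝ) := ContinuousLinearEquiv.ofBijective ((pagP m k).comp A)
    (LinearMap.ker_eq_bot.2 hinj) (LinearMap.range_eq_top.2 hsurj)
  have he : (e : (κ → ℝ) →L[ℝ] (Ix m k → ℝ)) = (pagP m k).comp A := by
    ext u : 1
    rfl
  have hgan : AnalyticAt ℝ (fun u => pagP m k (σ u)) u0 := by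
    have := (pagP m k).analyticAt (σ u0)
    exact this.comp H.ana
  have hg : HasStrictFDerivAt (fun u => pagP m k (σ u))
      (e : (κ → ℝ) →L[ℝ] (Ix m k → ℝ)) u0 := by
    rw [he]
    exact (pagP m k).hasStrictFDerivAt.comp u0 hσ
  have hgc : ContDiffAt ℝ ⊤ (fun u => pagP m k (σ u)) u0 := hgan.contDiffAt
  have hg0 : pagP m k (σ u0) = 0 := by rw [H.zero, map_zero]
  set β := hg.localInverse (fun u => pagP m k (σ u)) e u0 with hβdef
  have hβ0 : β 0 = u0 := by
    have := hg.localInverse_apply_image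
    simp only [hg0] at this
    exact this
  have hβan : AnalyticAt ℝ β 0 := by
    have h1 : ContDiffAt ℝ ⊤ (hgc.localInverse hg.hasFDerivAt (by simp))
        (pagP m k (σ u0)) := hgc.to_localInverse hg.hasFDerivAt (by simp)
    rw [hg0] at h1
    exact h1.analyticAt
  have hright : ∀ᶠ x in 𝓝 (0 : Ix m k → ℝ), pagP m k (σ (β x)) = x := by
    have := hg.eventually_right_inverse
    simp only [hg0] at this
    exact this
  have hleft : ∀ᶠ u in 𝓝 u0, β (pagP m k (σ u)) = u := hg.eventually_left_inverse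
  have hβt : Tendsto β (𝓝 0) (𝓝 u0) := by
    have := hβan.continuousAt.tendsto
    rwa [hβ0] at this
  -- the graph
  set h0 : (Ix m k → ℝ) → (Fin k → ℝ) := fun x => pagN m k (σ (β x)) with hh0
  have hσβ : AnalyticAt ℝ (fun x => σ (β x)) 0 := by
    have h1 : AnalyticAt ℝ σ (β 0) := by
      rw [hβ0]
      exact H.ana
    exact h1.comp hβan
  have hh0an : AnalyticAt ℝ h0 0 :=
    AnalyticAt.comp (g := pagN m k) (f := fun x => σ (β x)) ((pagN m k).analyticAt _) hσβ
  have hh00 : h0 0 = 0 := by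
    change pagN m k (σ (β 0)) = 0
    rw [hβ0, H.zero, map_zero]
  have hh0d : fderiv ℝ h0 0 = 0 := by
    have h1 : HasFDerivAt β (fderiv ℝ β 0) 0 := hβan.differentiableAt.hasFDerivAt
    have h2 : HasFDerivAt σ A (β 0) := by
      rw [hβ0]
      exact hσ.hasFDerivAt
    have h3 : HasFDerivAt h0 ((pagN m k).comp (A.comp (fderiv ℝ β 0))) 0 :=
      (pagN m k).hasFDerivAt.comp 0 (h2.comp 0 h1)
    rw [h3.fderiv]
    ext1 x
    exact hNA _
  have E1 : ∀ᶠ x in 𝓝 (0 : Ix m k → ℝ), pt x (h0 x) ∈ T := by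
    filter_upwards [hβt.eventually H.mem, hright] with x h1 h2
    have h3 : pt x (h0 x) = σ (β x) := by
      conv_rhs => rw [← pag_eta (σ (β x)), h2]
    rw [h3]
    exact h1
  have E2 : ∀ᶠ q in 𝓝 (0 : Cn (m + k)), q ∈ T → pagN m k q = h0 (pagP m k q) := by
    have hτ : Tendsto τ (𝓝 0) (𝓝 u0) := by
      have := H.cont.tendsto
      rwa [H.tau0] at this
    filter_upwards [H.inv, hτ.eventually hleft] with q h1 h2 hq
    have h3 := h1 hq
    rw [h3] at h2
    change pagN m k q = pagN m k (σ (β (pagP m k q)))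
    rw [h2, h3]
  have E2' : ∀ᶠ p : (Ix m k → ℝ) × (Fin k → ℝ) in 𝓝 (0, 0), pt p.1 p.2 ∈ T → p.2 = h0 p.1 := by
    have h1 : Tendsto (fun p : (Ix m k → ℝ) × (Fin k → ℝ) => pt p.1 p.2) (𝓝 (0, 0)) (𝓝 0) := by
      have := (pag_pt_cont (m := m) (k := k)).tendsto (0, 0)
      simp only [pag_pt_zero] at this
      exact this
    filter_upwards [h1.eventually E2] with p h2 h3
    have h4 := h2 h3
    rwa [pagN_pt, pagP_pt] at h4
  obtain ⟨r, hr, hr2⟩ := Metric.eventually_nhds_iff_ball.1 E2'
  have hr2' : ∀ (x : Ix m k → ℝ) (v : Fin k → ℝ), ‖x‖ < r → ‖v‖ < r → pt x v ∈ T → v = h0 x := by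
    intro x v hx hv hT
    refine hr2 (x, v) ?_ hT
    rw [mem_ball, dist_eq_norm, Prod.norm_def]
    simp only [Prod.fst_sub, Prod.snd_sub, sub_zero]
    exact max_lt hx hv
  set r2 := min r ρ with hr2def
  have hr20 : 0 < r2 := lt_min hr hρ
  have E3 : ∀ᶠ x in 𝓝 (0 : Ix m k → ℝ), ‖fderiv ℝ h0 x‖ < ε := by
    have h1 : ContinuousAt (fun x => ‖fderiv ℝ h0 x‖) 0 := hh0an.fderiv.continuousAt.norm
    refine h1.eventually_lt continuousAt_const ?_
    rw [hh0d, norm_zero]
    exact hε
  have E4 : ∀ᶠ x in 𝓝 (0 : Ix m k → ℝ), ‖h0 x‖ < r2 := by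
    have h1 : ContinuousAt (fun x => ‖h0 x‖) 0 := hh0an.continuousAt.norm
    refine h1.eventually_lt continuousAt_const ?_
    rw [hh00, norm_zero]
    exact hr20
  obtain ⟨r', hr', hball⟩ := Metric.eventually_nhds_iff_ball.1
    ((hh0an.eventually_analyticAt.and E1).and (E3.and E4))
  refine ⟨min r' r2, r2, h0, lt_min hr' hr20, (min_le_right _ _).trans (min_le_right _ _), hr20,
    min_le_right _ _, ?_, ?_⟩
  · intro x hx
    exact (hball x (ball_subset_ball (min_le_left _ _) hx)).1.1
  · intro x hx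
    have hx' := hball x (ball_subset_ball (min_le_left _ _) hx)
    refine ⟨hx'.2.1.le, hx'.2.2, fun v hv => ⟨fun hT => ?_, ?_⟩⟩
    · refine hr2' x v ?_ (hv.trans_le (min_le_left _ _)) hT
      rw [mem_ball_zero_iff] at hx
      exact hx.trans_le ((min_le_right _ _).trans (min_le_left _ _))
    · rintro rfl
      exact hx'.1.2

end KV
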