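import Pool.Agent.Lib.KV.SpecK3

set_option autoImplicit false

open Set Filter Topology Metric

namespace KV

open KP

namespace RkCAux

/-- The determinant of `β ∘ M ∘ α`. -/
noncomputable def dt {d n r : ℕ} (α : Cn (r + 1) →ₗ[ℂ] Cn d) (β : Cn n →ₗ[ℂ] Cn (r + 1))
    (M : Cn d →L[ℂ] Cn n) : ℂ :=
  Matrix.det (Matrix.of fun i j : Fin (r + 1) => β (M (α (Pi.single j 1))) i)

theorem dt_zero {d n r : ℕ} (α : Cn (r + 1) →ₗ[ℂ] Cn d) (β : Cn n →ₗ[ℂ] Cn (r + 1))
    (M : Cn d →L[ℂ] Cn n) (h : rk M ≤ r) : dt α β M = 0 := by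
  by_contra hne
  have h1 : dt α β M = LinearMap.det (β ∘ₗ M.toLinearMap ∘ₗ α) := by
    rw [← LinearMap.det_toMatrix']
    rfl
  rw [h1] at hne
  have h2 : LinearMap.range (β ∘ₗ M.toLinearMap ∘ₗ α) = ⊤ := by
    have h3 : IsUnit (β ∘ₗ M.toLinearMap ∘ₗ α : Module.End ℂ (Cn (r + 1))) :=
      (LinearMap.isUnit_iff_isUnit_det _).2 (isUnit_iff_ne_zero.2 hne)
    exact LinearMap.range_eq_top.2 ((Module.End.isUnit_iff _).1 h3).2
  have h4 : LinearMap.range (β ∘ₗ M.toLinearMap ∘ₗ α) ≤ (LinearMap.range M.toLinearMap).map β := by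
    rintro _ ⟨x, rfl⟩
    exact ⟨M (α x), ⟨α x, rfl⟩, rfl⟩
  have h5 := Submodule.finrank_mono h4
  rw [h2, finrank_top, Module.finrank_fin_fun] at h5
  have h6 := Submodule.finrank_map_le β (LinearMap.range M.toLinearMap)
  have h7 : Module.finrank ℂ (LinearMap.range M.toLinearMap) ≤ r := h
  omega

theorem exists_dt {d n r : ℕ} (M : Cn d →L[ℂ] Cn n) (h : r + 1 ≤ rk M) :
    ∃ (α : Cn (r + 1) →ₗ[ℂ] Cn d) (β : Cn n →ₗ[ℂ] Cn (r + 1)), dt α β M ≠ 0 := by
  have h' : r + 1 ≤ Module.finrank ℂ (LinearMap.range M.toLinearMap) := h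
  let b := Module.finBasis ℂ (LinearMap.range M.toLinearMap)
  let y : Fin (r + 1) → LinearMap.range M.toLinearMap := fun i => b (Fin.castLE h' i)
  have hy : LinearIndependent ℂ y := b.linearIndependent.comp _ (Fin.castLE_injective h')
  have hy2 : LinearIndependent ℂ (fun i => (y i : Cn n)) :=
    hy.map' (LinearMap.range M.toLinearMap).subtype (Submodule.ker_subtype _)
  choose x hx using fun i => (y i).2
  let Y : Cn (r + 1) →ₗ[ℂ] Cn n := (Pi.basisFun ℂ (Fin (r + 1))).constr ℂ (fun i => (y i : Cn n))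
  have hY : LinearMap.ker Y = ⊥ := by
    rw [LinearMap.ker_eq_bot']
    intro m hm
    rw [Module.Basis.constr_apply_fintype] at hm
    have h3 := Fintype.linearIndependent_iff.1 hy2 m (by simpa using hm)
    exact funext h3
  obtain ⟨β, hβ⟩ := LinearMap.exists_leftInverse_of_injective Y hY
  refine ⟨(Pi.basisFun ℂ (Fin (r + 1))).constr ℂ x, β, ?_⟩
  have h4 : (Matrix.of fun i j : Fin (r + 1) =>
      β (M ((Pi.basisFun ℂ (Fin (r + 1))).constr ℂ x (Pi.single j 1))) i) = 1 := by
    ext i j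
    have h5 : (Pi.basisFun ℂ (Fin (r + 1))).constr ℂ x (Pi.single j 1) = x j := by
      have := (Pi.basisFun ℂ (Fin (r + 1))).constr_basis ℂ x j
      rwa [Pi.basisFun_apply] at this
    have h6 : Y (Pi.single j 1) = (y j : Cn n) := by
      have := (Pi.basisFun ℂ (Fin (r + 1))).constr_basis ℂ (fun i => (y i : Cn n)) j
      rwa [Pi.basisFun_apply] at this
    have h7 : M (x j) = (y j : Cn n) := hx j
    have h8 : β (Y (Pi.single j 1)) = Pi.single j 1 := LinearMap.congr_fun hβ (Pi.single j 1)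
    rw [Matrix.of_apply, h5, h7, ← h6, h8, Matrix.one_apply, Pi.single_apply]
  unfold dt
  rw [h4, Matrix.det_one]
  exact one_ne_zero

theorem prodD {d m : ℕ} (s : Set (Cn d)) (f : Fin m → Cn d → ℂ) (u : Finset (Fin m))
    (h : ∀ i, DifferentiableOn ℂ (f i) s) : DifferentiableOn ℂ (fun z => ∏ i ∈ u, f i z) s := by
  classical
  induction u using Finset.induction_on with
  | empty => simpa using differentiableOn_const (1 : ℂ)
  | insert i u hi ih =>
    simp only [Finset.prod_insert hi]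
    exact (h i).mul ih

end RkCAux

open RkCAux

theorem tRkC (h1 : KP.S_RId) : S_RkC := by
  intro d n r F a ρ hρ hF h ξ hξ
  by_contra hr
  obtain ⟨α, β, hne⟩ := exists_dt (fderiv ℂ F ξ) (Nat.lt_of_not_le hr)
  have hF' : DifferentiableOn ℂ (fderiv ℂ F) (ball (fun i => (a i : ℂ)) ρ) :=
    Pool.Agent.Lib.Osgood.differentiableOn_fderiv isOpen_ball hF
  let A : Cn d := fun i => (a i : ℂ)
  have hmap : MapsTo (fun z : Cn d => A + z) (ball 0 ρ) (ball A ρ) := by
    intro z hz
    rw [mem_ball, dist_eq_norm, add_sub_cancel_left]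
    rwa [mem_ball_zero_iff] at hz
  have hG : DifferentiableOn ℂ (fun z : Cn d => fderiv ℂ F (A + z)) (ball 0 ρ) :=
    hF'.comp ((differentiable_id.const_add A).differentiableOn) hmap
  have hφ : DifferentiableOn ℂ (fun z : Cn d => dt α β (fderiv ℂ F (A + z))) (ball 0 ρ) := by
    have he : ∀ i j : Fin (r + 1), DifferentiableOn ℂ (fun z : Cn d =>
        β (fderiv ℂ F (A + z) (α (Pi.single j 1))) i) (ball 0 ρ) := by
      intro i j
      have h2 : DifferentiableOn ℂ (fun z : Cn d =>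
        fderiv ℂ F (A + z) (α (Pi.single j 1))) (ball 0 ρ) :=
        hG.clm_apply (differentiableOn_const _)
      let γ : Cn n →L[ℂ] ℂ := ((LinearMap.proj i).comp β).toContinuousLinearMap
      exact γ.differentiable.comp_differentiableOn h2
    unfold dt
    simp only [Matrix.det_apply, Matrix.of_apply]
    refine DifferentiableOn.fun_sum fun σ _ => ?_
    refine DifferentiableOn.const_smul ?_ _
    exact prodD _ (fun (i : Fin (r + 1)) (z : Cn d) =>
      β (fderiv ℂ F (A + z) (α (Pi.single i 1))) (σ i)) Finset.univ (fun i => he (σ i) i)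
  have h3 := h1 d _ ρ hφ (fun x hx => by
    refine dt_zero α β _ ?_
    have h4 := h (a + x) (by rwa [add_sub_cancel_left])
    have h5 : (A + fun i => (x i : ℂ)) = fun i => ((a + x) i : ℂ) := by
      funext i
      simp [A]
    rw [h5]
    exact h4) (ξ - A) (by
      rw [mem_ball_zero_iff, ← dist_eq_norm]
      exact hξ)
  rw [add_sub_cancel] at h3
  exact hne h3

end KV
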