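import Pool.Agent.Lib.KV.SpecK3

/-!
# KV (MP_64edc4_ag), block K: affine coordinate changes preserve semialgebraic sets
-/

set_option autoImplicit false

open Set Filter Topology Metric

namespace KV

open KP

/-- The matrix entries. -/
private noncomputable def scaE {n : ℕ} (L : Cn n ≃L[ℂ] Cn n) (i j : Fin n) : ℂ :=
  L (fun l => if i = l then 1 else 0) j

private theorem sca_apply {n : ℕ} (L : Cn n ≃L[ℂ] Cn n) (w : Cn n) (j : Fin n) :
    L w j = ∑ i, w i * scaE L i j := by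
  have h := LinearMap.pi_apply_eq_sum_univ (L : Cn n →ₗ[ℂ] Cn n) w
  have h1 : L w = ∑ i, w i • L (fun l => if i = l then 1 else 0) := h
  rw [h1, Finset.sum_apply]
  rfl

/-- The polynomials. -/
private noncomputable def scaF {n : ℕ} (c : Cn n) (L : Cn n ≃L[ℂ] Cn n) :
    Fin n ⊕ Fin n → MvPolynomial (Fin n ⊕ Fin n) ℝ :=
  Sum.elim
    (fun j => MvPolynomial.C (c j).re + ∑ i, (MvPolynomial.X (Sum.inl i) *
      MvPolynomial.C (scaE L i j).re - MvPolynomial.X (Sum.inr i) * MvPolynomial.C (scaE L i j).im))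
    (fun j => MvPolynomial.C (c j).im + ∑ i, (MvPolynomial.X (Sum.inl i) *
      MvPolynomial.C (scaE L i j).im + MvPolynomial.X (Sum.inr i) * MvPolynomial.C (scaE L i j).re))

private theorem sca_eq {n : ℕ} (c : Cn n) (L : Cn n ≃L[ℂ] Cn n) (x : Fin n ⊕ Fin n → ℝ) :
    cpx (fun s => MvPolynomial.eval x (scaF c L s)) = c + L (cpx x) := by
  funext j
  rw [Pi.add_apply, sca_apply]
  apply Complex.ext
  · simp [cpx, scaF]
  · simp [cpx, scaF]

theorem tSCa : S_SCa := by
  intro n A c L hA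
  have h1 := SQ.preim hA (scaF c L)
  have h2 : {x : Fin n ⊕ Fin n → ℝ | (fun s => MvPolynomial.eval x (scaF c L s)) ∈
      {x : Fin n ⊕ Fin n → ℝ | cpx x ∈ A}} =
      {x : Fin n ⊕ Fin n → ℝ | cpx x ∈ (Chart.aff c L).pre A} := by
    ext x
    change cpx (fun s => MvPolynomial.eval x (scaF c L s)) ∈ A ↔
      (cpx x ∈ (univ : Set (Cn n)) ∧ c + L (cpx x) ∈ A)
    rw [sca_eq]
    simp
  rw [h2] at h1
  exact h1

end KV
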